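import Pool.Agent.TH145.MG.Unb

/-!
Integral points of bounded height.
-/

set_option autoImplicit false

open Finset FF Pool.Agent.W603.LV Pool.Agent.W603.PV Pool.Agent.W602.RG

namespace Pool.Agent.TH145.MG

open Pool.Agent.TH145.MW

theorem eng_bdd {k L : Type} [Field k] [Field L] [Algebra k L] [IsAlgClosed k] [CharZero k]
    [IsFF k L] {q n : ℕ} {ι κ : Type} [Finite ι] [Finite κ] (A : Fin q → Fin (n + 1) → L)
    (b : ι → Fin q → L) (d : ι → ℕ) (c : κ → Fin q → L) (e : κ → ℕ)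
    (hd : ∀ a, 0 < d a ∧ (terms (b a) - 1) ^ 2 ≤ d a) (he : ∀ a, 0 < e a ∧ terms (c a) ^ 2 ≤ e a)
    (S : Finset (Place k L)) (l0 : Fin (n + 1)) (M : Set (Fin (n + 1) → L))
    (hinf' : M.Infinite)
    (hM1 : ∀ z ∈ M, z l0 = 1) (hM2 : ∀ z ∈ M, ∀ a, W A (b a) (d a) z = 0)
    (hM3 : ∀ z ∈ M, ∀ a, W A (c a) (e a) z ≠ 0 ∧ ∀ P ∉ S, ∀ l, z l ≠ 0 →
        P.ord (W A (c a) (e a) z) ≤ e a * P.ord (z l)) (B : ℤ)
    (hhgt : ∀ z ∈ M, ∀ j, hgt k (z j) ≤ B) :
    BadDer (cst L) (Set.range (mapOm k L)) M l0 A b d c e := by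
  classical
  -- a coordinate with infinitely many values
  obtain ⟨i1, hi1⟩ : ∃ i1, ((fun f : Fin (n + 1) → L => f i1) '' M).Infinite := by
    by_contra hcon
    push Not at hcon
    apply hinf'
    apply (Set.Finite.pi' (t := fun j : Fin (n + 1) => (fun f : Fin (n + 1) → L => f j) '' M)
      (fun j => hcon j)).subset
    intro f hf j
    exact ⟨f, hf, rfl⟩
  obtain ⟨p, u, θ, hu, hθ, hval⟩ := Pool.Agent.W764.RG.Seq.main k L B _ hi1 (by
    rintro _ ⟨f, hf, rfl⟩
    exact hhgt f hf i1)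
  choose g hgM hgu using hu
  have hg1 : ∀ l, g l l0 = 1 := fun l => hM1 _ (hgM l)
  -- homogeneous coordinates in a finite dimensional space
  obtain ⟨V, hV, hVf⟩ := Pool.Agent.W369.RG.RIE.main k L n (∑ _j : Fin (n + 1), B)
  have hφ : ∀ l, ∃ φ : L, φ ≠ 0 ∧ ∀ j, φ * g l j ∈ V := fun l =>
    hVf (g l) ⟨l0, by rw [hg1]; exact one_ne_zero⟩ (by
      have h1 := Pool.Agent.W603.PV.pht_le (k := k) (g l) (l := l0)
        (by rw [hg1]; exact one_ne_zero)
      refine h1.trans (Finset.sum_le_sum fun j _ => ?_)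
      rw [hg1, div_one]
      exact hhgt _ (hgM l) j)
  choose φ hφ0 hφV using hφ
  have hφE : Om.mk φ ∈ EE k L := by
    apply Pool.Agent.W61.RG.GSP.main k L V hV
    intro l
    have := hφV l l0
    rwa [hg1, mul_one] at this
  have hφne : Om.mk φ ≠ 0 := Om.mk_ne_zero hφ0
  have hgE : ∀ j, Om.mk (fun l => g l j) ∈ EE k L := by
    intro j
    have h1 : Om.mk (fun l => φ l * g l j) ∈ EE k L :=
      Pool.Agent.W61.RG.GSP.main k L V hV _ fun l => hφV l j
    have h2 : Om.mk (fun l => g l j) = Om.mk (fun l => φ l * g l j) / Om.mk φ := by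
      rw [← Om.mk_mul, mul_div_cancel_left₀ _ hφne]
    rw [h2]
    exact div_mem h1 hφE
  let fE : Fin (n + 1) → EE k L := fun j => ⟨Om.mk fun l => g l j, hgE j⟩
  have hfE : ∀ j, (fE j : Om L) = Om.mk fun l => g l j := fun j => rfl
  have hf1 : fE l0 = 1 := by
    apply Subtype.ext
    rw [hfE]
    change _ = Om.mk fun _ => (1 : L)
    congr 1
    funext l
    exact hg1 l
  -- the fields
  have hBC : BC k L (Om k) (EE k L) := Pool.Agent.W736.RG.main k L
  have hAC : IsAlgClosed (Om k) := Pool.Agent.W917.RG.GAC.main k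
  have hCZ : CharZero (Om k) :=
    charZero_of_injective_algebraMap (algebraMap k (Om k)).injective
  have hcL : CharZero L := charZero_of_injective_algebraMap (algebraMap k L).injective
  have hcE : CharZero (EE k L) := charZero_of_injective_algebraMap (algebraMap k (EE k L)).injective
  have hFF : IsFF (Om k) (EE k L) := Pool.Agent.W215.RG.ISF.main k L _ _ hBC
  obtain ⟨D0, hD0⟩ := Pool.Agent.W160.RG.DER.main k (Om k) (Om.mk θ)
    (Pool.Agent.W32.RG.GTR.main k θ hθ)
  obtain ⟨D, hD⟩ := Pool.Agent.W797.RG.main k L _ _ hBC D0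
  have hregC : ∀ P : Place (Om k) (EE k L), (∃ l : L, P.ord (algebraMap L (EE k L) l) ≠ 0) →
      Reg0 D P := Pool.Agent.W215.RG.RGC.main k L _ _ hBC D D0 hD
  have hreg : ∀ P : Place (Om k) (EE k L), Reg0 D P ∨ Mov D P := by
    intro P
    by_cases h : ∃ l : L, P.ord (algebraMap L (EE k L) l) ≠ 0
    · exact Or.inl (hregC P h)
    · push Not at h
      exact Pool.Agent.W440.RG.RGM.main k L _ _ hBC D D0 hD P h
  -- the coordinate with infinitely many values is moving
  obtain ⟨P1, hP1, hP1v⟩ := Pool.Agent.W374.RG.GPL.main k L p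
  have hDi1 : D (fE i1) ≠ 0 := by
    intro h0
    have h1 : fE i1 - algebraMap (Om k) (EE k L) (Om.mk θ) = 0 ∨
        0 < P1.ord (fE i1 - algebraMap (Om k) (EE k L) (Om.mk θ)) := by
      refine hP1v _ (fun l => g l i1 - algebraMap k L (θ l)) ?_ fun l => ?_
      · change Om.mk (fun l => g l i1) - mapOm k L (Om.mk θ) = _
        rw [mapOm_mk, Om.mk_sub]
      · have h4 : g l i1 = u l := hgu l
        change g l i1 - algebraMap k L (θ l) = 0 ∨ 0 < p.ord (g l i1 - algebraMap k L (θ l))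
        rw [h4, sub_eq_zero]
        exact hval l
    have h2 : D (fE i1 - algebraMap (Om k) (EE k L) (Om.mk θ)) =
        - algebraMap (Om k) (EE k L) (D0 (Om.mk θ)) := by
      rw [map_sub, h0, hD, zero_sub]
    have h3 : algebraMap (Om k) (EE k L) (D0 (Om.mk θ)) ≠ 0 := (map_ne_zero _).2 hD0
    rcases h1 with h | h
    · rw [h, map_zero] at h2
      exact h3 (neg_eq_zero.1 h2.symm)
    · have h4 := hregC P1 hP1 (fE i1 - algebraMap (Om k) (EE k L) (Om.mk θ))
        (by rw [h2]; exact neg_ne_zero.2 h3)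
      rw [h2, P1.ord_neg, P1.ord_const hD0] at h4
      omega
  have hev0 : ∀ (w : EE k L) (s : ℕ → L), (w : Om L) = Om.mk s →
      ∀ᶠ m in (Filter.hyperfilter ℕ : Filter ℕ), (w = 0 ↔ s m = 0) := by
    intro w s hws
    by_cases hw : w = 0
    · have h1 : Om.mk s = Om.mk fun _ => (0 : L) := by
        rw [← hws, hw]; rfl
      rw [Om.mk_eq] at h1
      exact h1.mono fun l hl => ⟨fun _ => hl, fun _ => hw⟩
    · have h1 : ∀ᶠ m in (Filter.hyperfilter ℕ : Filter ℕ), ¬ (s m = 0) := by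
        rw [Ultrafilter.eventually_not]
        intro h
        apply hw
        apply Subtype.ext
        rw [hws]
        change _ = Om.mk fun _ => (0 : L)
        rw [Om.mk_eq]
        exact h
      exact h1.mono fun l hl => ⟨fun h => absurd h hw, fun h => absurd h hl⟩
  -- the values of the linear forms
  let t : Fin q → EE k L := fun j => ∑ l, algebraMap L (EE k L) (A j l) * fE l
  have ht : ∀ j, (t j : Om L) = Om.mk fun m => A j ⬝ᵥ g m := fun j => coe_dot (A j) g fE hfE
  have hsum : ∀ (T : Finset (Fin q)) (c : Fin q → L) (e : ℕ),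
      ((∑ j ∈ T, algebraMap L (EE k L) (c j) * t j ^ e : EE k L) : Om L) =
        Om.mk fun m => ∑ j ∈ T, c j * (A j ⬝ᵥ g m) ^ e :=
    fun T c e => coe_sumT T c (fun m j => A j ⬝ᵥ g m) t ht e
  -- the derivatives of the coordinates
  have hv : ∀ l, ∃ s : ℕ → L, (D (fE l) : Om L) = Om.mk s := by
    intro l
    obtain ⟨s, hs⟩ := Om.mk_surj ((D (fE l) : EE k L) : Om L)
    exact ⟨s, hs.symm⟩
  choose v' hv' using hv
  obtain ⟨v, hvv⟩ : ∃ v : ℕ → Fin (n + 1) → L, ∀ m l, v m l = v' l m := ⟨fun m l => v' l m, fun _ _ => rfl⟩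
  have hv : ∀ l, ((D (fE l) : EE k L) : Om L) = Om.mk fun m => v m l := by
    intro l
    rw [hv' l]
    congr 1
    funext m
    rw [hvv]
  have hDt : ∀ j, D (t j) = ∑ l, algebraMap L (EE k L) (A j l) * D (fE l) := by
    intro j
    simp only [t]
    rw [map_sum]
    refine Finset.sum_congr rfl fun l _ => ?_
    rw [D.leibniz, D.map_algebraMap]
    simp
  have hDt' : ∀ j, ((D (t j) : EE k L) : Om L) = Om.mk fun m => A j ⬝ᵥ v m := by
    intro j
    rw [hDt j]
    exact coe_dot (A j) v (fun l => D (fE l)) hv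
  -- the classes
  have hcls1 : ∀ a, ∀ T : Finset (Fin q), (∀ i ∈ T, t i ≠ 0) →
      (∀ i ∈ T, ∀ j, t j ≠ 0 → Rel (Om k) D (t i ^ d a) (t j ^ d a) → j ∈ T) →
      ∑ j ∈ T, algebraMap L (EE k L) (b a j) * t j ^ d a = 0 := by
    intro a
    have h1 : (0 : EE k L) = ∑ j, algebraMap L (EE k L) (b a j) * t j ^ d a := by
      apply Subtype.ext
      rw [hsum]
      change (Om.mk fun _ => (0 : L)) = _
      congr 1
      funext m
      exact (hM2 _ (hgM m) a).symm
    obtain ⟨Sp, -, -, h4, h5⟩ := cls D hreg (hd a).1 (b a) t 0 h1 (Or.inl ⟨rfl, (hd a).2⟩)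
    intro T hT0 hT
    exact h5 T hT0 hT fun i _ => h4 rfl i
  have hcls2 : ∀ a, ∃ Sp : Fin q → Prop,
      (∀ i j, Sp i → Sp j → t i ≠ 0 ∧ t j ≠ 0 ∧ Rel (Om k) D (t i ^ e a) (t j ^ e a)) ∧
      (∃ i, Sp i) ∧ ∀ T : Finset (Fin q), (∀ i ∈ T, t i ≠ 0) →
        (∀ i ∈ T, ∀ j, t j ≠ 0 → Rel (Om k) D (t i ^ e a) (t j ^ e a) → j ∈ T) →
        (∀ i ∈ T, ¬ Sp i) → ∑ j ∈ T, algebraMap L (EE k L) (c a j) * t j ^ e a = 0 := by
    intro a
    obtain ⟨F, hF⟩ : ∃ F : EE k L, F = ∑ j, algebraMap L (EE k L) (c a j) * t j ^ e a := ⟨_, rfl⟩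
    have hFc : (F : Om L) = Om.mk fun m => W A (c a) (e a) (g m) := by
      rw [hF, hsum]
      rfl
    have hF0 : F ≠ 0 := by
      intro h0
      have h1 := Om.mk_ne_zero (u := fun m => W A (c a) (e a) (g m))
        fun m => (hM3 _ (hgM m) a).1
      apply h1
      rw [← hFc, h0]
      rfl
    have hFW : F = W (fun j l => algebraMap L (EE k L) (A j l))
        (fun j => algebraMap L (EE k L) (c a j)) (e a) fE := by
      rw [hF]
      rfl
    have hdiv : ∀ P : Place (Om k) (EE k L), Mov D P → (e a : ℤ) ∣ P.ord F := by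
      intro P hP
      have hP0 : ∀ l : L, P.ord (algebraMap L (EE k L) l) = 0 := fun l =>
        hP.2.2 _ (D.map_algebraMap l)
      rw [hFW]
      refine ord_W P _ (fun j l => Or.inr (hP0 _).symm.le) _ (fun j => Or.inr (hP0 _).symm.le) fE
        ⟨l0, by rw [hf1]; exact one_ne_zero⟩ (by rw [← hFW]; exact hF0) ?_
      intro l hl
      rw [← hFW]
      obtain ⟨C, hC⟩ := hgt_W (k := k) A (c a) (e a) B
      obtain ⟨y, hy, hyP⟩ := mk_mov k L S (e a * B + C)
        (fun m => g m l ^ e a / W A (c a) (e a) (g m)) (by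
          intro m
          constructor
          · rw [div_eq_mul_inv]
            refine (hgt_mul_le (k := k) _ _).trans (add_le_add ?_ ?_)
            · exact (hgt_pow_le (k := k) _ _).trans
                (mul_le_mul_of_nonneg_left (hhgt _ (hgM m) l) (by positivity))
            · rw [hgt_inv]
              exact hC _ (hhgt _ (hgM m))
          · intro Q hQ
            by_cases h0 : g m l = 0
            · left
              rw [h0, zero_pow (he a).1.ne', zero_div]
            · right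
              have h1 := (hM3 _ (hgM m) a).2 Q hQ l h0
              rw [div_eq_mul_inv, Q.ord_mul (pow_ne_zero _ h0)
                (inv_ne_zero (hM3 _ (hgM m) a).1), Q.ord_inv, Q.ord_pow]
              linarith)
      have h1 : y * F = fE l ^ e a := by
        apply Subtype.ext
        change (y : Om L) * (F : Om L) = (fE l : Om L) ^ e a
        rw [hy, hFc, hfE, Om.mk_mul]
        have h2 : (Om.mk fun m => g m l) ^ e a = Om.mk fun m => g m l ^ e a := by
          rw [← Pool.Agent.TH145.MF.mkHom_apply, ← Pool.Agent.TH145.MF.mkHom_apply, ← map_pow]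
          rfl
        rw [h2]
        congr 1
        funext m
        exact div_mul_cancel₀ _ (hM3 _ (hgM m) a).1
      have hy0 : y ≠ 0 := by
        rintro rfl
        rw [zero_mul] at h1
        exact pow_ne_zero _ hl h1.symm
      have h2 := (hyP P hP0).resolve_left hy0
      have h3 := congrArg P.ord h1
      rw [P.ord_mul hy0 hF0, P.ord_pow] at h3
      linarith
    obtain ⟨Sp, h2, h3, -, h5⟩ := cls D hreg (he a).1 (c a) t F hF (Or.inr ⟨hF0, (he a).2, hdiv⟩)
    exact ⟨Sp, h2, h3 hF0, h5⟩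
  choose Sp hSp2 hSp3 hSp5 using hcls2
  -- the derivatives of the quotients
  have hRel : ∀ (i j : Fin q) (N : ℕ), 0 < N → t i ≠ 0 → t j ≠ 0 →
      Rel (Om k) D (t i ^ N) (t j ^ N) → ∃ ρ : ℕ → k,
      D (t i) * t j - D (t j) * t i = algebraMap (Om k) (EE k L) (Om.mk ρ) * (t i * t j) := by
    rintro i j N hN0 hi hj ⟨ω, w, hω, hw, hDw, h1⟩
    obtain ⟨ρ, hρ⟩ := Om.mk_surj (D0 ω / ω / (N : Om k))
    refine ⟨ρ, ?_⟩
    have hω' : algebraMap (Om k) (EE k L) ω ≠ 0 := (map_ne_zero _).2 hω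
    have hN' : (N : EE k L) ≠ 0 := by exact_mod_cast hN0.ne'
    have h2 := congrArg D h1
    rw [D.leibniz, D.leibniz_pow, D.leibniz_pow, D.leibniz, hDw, hD] at h2
    simp only [smul_eq_mul, nsmul_eq_mul, mul_zero, zero_add] at h2
    have h3 : (N : EE k L) * (D (t i) * t j - D (t j) * t i) * (t i ^ (N - 1) * t j ^ (N - 1)) =
        algebraMap (Om k) (EE k L) (D0 ω) / algebraMap (Om k) (EE k L) ω * (t i ^ N * t j ^ N) := by
      have h4 : t i ^ N = t i ^ (N - 1) * t i := by rw [← pow_succ, Nat.sub_add_cancel hN0]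
      have h5 : t j ^ N = t j ^ (N - 1) * t j := by rw [← pow_succ, Nat.sub_add_cancel hN0]
      have h6 : (N : EE k L) * (D (t i) * t i ^ (N - 1)) * t j ^ N =
          algebraMap (Om k) (EE k L) ω * w * (N * (D (t j) * t j ^ (N - 1))) * t j ^ N +
            algebraMap (Om k) (EE k L) (D0 ω) * w * t j ^ N * t j ^ N := by
        linear_combination t j ^ N * h2
      have h7 : (N : EE k L) * (D (t i) * t i ^ (N - 1)) * t j ^ N =
          (N : EE k L) * (D (t j) * t j ^ (N - 1)) * t i ^ N +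
            algebraMap (Om k) (EE k L) (D0 ω) / algebraMap (Om k) (EE k L) ω * t i ^ N * t j ^ N := by
        rw [h6, h1]
        field_simp
      rw [h5, h4] at h7 ⊢
      linear_combination h7
    rw [hρ, map_div₀, map_div₀, map_natCast]
    have h4 : t i ^ (N - 1) * t j ^ (N - 1) ≠ 0 := mul_ne_zero (pow_ne_zero _ hi) (pow_ne_zero _ hj)
    have h5 : t i ^ N * t j ^ N = (t i * t j) * (t i ^ (N - 1) * t j ^ (N - 1)) := by
      have h6 : t i ^ N = t i ^ (N - 1) * t i := by rw [← pow_succ, Nat.sub_add_cancel hN0]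
      have h7 : t j ^ N = t j ^ (N - 1) * t j := by rw [← pow_succ, Nat.sub_add_cancel hN0]
      rw [h6, h7]
      ring
    rw [h5] at h3
    have h6 : (N : EE k L) * (D (t i) * t j - D (t j) * t i) =
        algebraMap (Om k) (EE k L) (D0 ω) / algebraMap (Om k) (EE k L) ω * (t i * t j) := by
      apply mul_right_cancel₀ h4
      rw [h3]
      ring
    field_simp at h6 ⊢
    linear_combination h6
  -- the point and the derivation
  let x : Fin (n + 1) → Om L := fun i => (fE i : Om L)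
  let D' : Om L → Om L := fun z => if h : z ∈ EE k L then ((D ⟨z, h⟩ : EE k L) : Om L) else 0
  have hD' : ∀ z : EE k L, D' (z : Om L) = ((D z : EE k L) : Om L) := by
    intro z
    simp only [D', dif_pos z.2]
  have htx : ∀ j, (fun i => cst L (A j i)) ⬝ᵥ x = (t j : Om L) := by
    intro j
    rw [ht j, ← dot_mk]
  have hDtx : ∀ j, (fun i => cst L (A j i)) ⬝ᵥ (fun i => D' (x i)) = ((D (t j) : EE k L) : Om L) := by
    intro j
    rw [hDt j, ← Subfield.coe_subtype, map_sum]
    simp only [dotProduct]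
    refine Finset.sum_congr rfl fun i _ => ?_
    rw [map_mul, Subfield.coe_subtype, coe_algebraMap_L, ← hD']
  have hx0 : ∀ z : EE k L, (z : Om L) = 0 ↔ z = 0 := fun z => ZeroMemClass.coe_eq_zero
  have hlam : ∀ (i j : Fin q) (N : ℕ), 0 < N → t i ≠ 0 → t j ≠ 0 →
      Rel (Om k) D (t i ^ N) (t j ^ N) → ∃ r : Om k,
      ((D (t i) : EE k L) : Om L) / (t i : Om L) - ((D (t j) : EE k L) : Om L) / (t j : Om L) =
        mapOm k L r := by
    intro i j N hN0 hi hj hr
    obtain ⟨r, hr⟩ := hRel i j N hN0 hi hj hr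
    refine ⟨Om.mk r, ?_⟩
    have hi' : (t i : Om L) ≠ 0 := fun h => hi ((hx0 _).1 h)
    have hj' : (t j : Om L) ≠ 0 := fun h => hj ((hx0 _).1 h)
    have h1 := congrArg (fun z : EE k L => (z : Om L)) hr
    change ((D (t i) : EE k L) : Om L) * (t j : Om L) - ((D (t j) : EE k L) : Om L) * (t i : Om L) =
      mapOm k L (Om.mk r) * ((t i : Om L) * (t j : Om L)) at h1
    rw [div_sub_div _ _ hi' hj', div_eq_iff (mul_ne_zero hi' hj')]
    linear_combination h1
  have hsumx : ∀ (T : Finset (Fin q)) (c : Fin q → L) (e : ℕ),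
      ∑ j ∈ T, cst L (c j) * ((fun i => cst L (A j i)) ⬝ᵥ x) ^ e =
        ((∑ j ∈ T, algebraMap L (EE k L) (c j) * t j ^ e : EE k L) : Om L) := by
    intro T c e
    rw [← Subfield.coe_subtype, map_sum]
    refine Finset.sum_congr rfl fun j _ => ?_
    rw [map_mul, map_pow, Subfield.coe_subtype, coe_algebraMap_L, htx]
  refine ⟨x, EE k L, D', ⟨?_, ?_⟩, ?_, fun i => (fE i).2, ?_, ⟨i1, ?_⟩, ?_, ?_, ?_⟩
  · intro a ha b hb
    have h1 := congrArg (fun z : EE k L => (z : Om L)) (D.map_add ⟨a, ha⟩ ⟨b, hb⟩)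
    simp only [D', dif_pos ha, dif_pos hb, dif_pos (add_mem ha hb)]
    exact h1
  · intro a ha b hb
    have h1 := congrArg (fun z : EE k L => (z : Om L)) (D.leibniz ⟨a, ha⟩ ⟨b, hb⟩)
    simp only [D', dif_pos ha, dif_pos hb, dif_pos (mul_mem ha hb)]
    exact h1
  · intro r
    refine ⟨cst_mem k L r, ?_⟩
    have h1 := hD' (algebraMap L (EE k L) r)
    rw [D.map_algebraMap] at h1
    exact h1
  · change (fE l0 : Om L) = 1
    rw [hf1]
    rfl
  · change D' (fE i1 : Om L) ≠ 0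
    rw [hD']
    exact fun h => hDi1 ((hx0 _).1 h)
  · intro f hf
    have h1 : x = fun i => Om.mk fun m => g m i := rfl
    rw [h1, eval_mk]
    change _ = Om.mk fun _ => (0 : L)
    congr 1
    funext m
    exact hf _ (hgM m)
  · intro a l
    obtain ⟨T, hT, hTs⟩ := clsum_eq (Set.range (mapOm k L)) (fun j i => cst L (A j i)) x
      (fun i => D' (x i)) (fun j => cst L (b a j)) (d a) l
    rw [hTs, hsumx, hcls1 a T]
    · rfl
    · intro i hi h0
      apply ((hT i).1 hi).1
      rw [htx, h0]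
      rfl
    · intro i hi j hj hr
      obtain ⟨h9, r1, h10⟩ := (hT i).1 hi
      rw [htx] at h9 h10
      rw [hDtx] at h10
      obtain ⟨r, hr⟩ := hlam i j _ (hd a).1 (fun h => h9 ((hx0 _).2 h)) hj hr
      refine (hT j).2 ⟨?_, r1 - r, ?_⟩
      · rw [htx]
        exact fun h => hj ((hx0 _).1 h)
      · rw [map_sub, ← hr, h10, htx, hDtx]
        ring
  · intro a
    obtain ⟨i0, hi0⟩ := hSp3 a
    refine ⟨((D (t i0) : EE k L) : Om L) / (t i0 : Om L), fun l hl => ?_⟩
    obtain ⟨T, hT, hTs⟩ := clsum_eq (Set.range (mapOm k L)) (fun j i => cst L (A j i)) x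
      (fun i => D' (x i)) (fun j => cst L (c a j)) (e a) l
    rw [hTs, hsumx, hSp5 a T]
    · rfl
    · intro i hi h0
      apply ((hT i).1 hi).1
      rw [htx, h0]
      rfl
    · intro i hi j hj hr
      obtain ⟨h9, r1, h10⟩ := (hT i).1 hi
      rw [htx] at h9 h10
      rw [hDtx] at h10
      obtain ⟨r, hr⟩ := hlam i j _ (he a).1 (fun h => h9 ((hx0 _).2 h)) hj hr
      refine (hT j).2 ⟨?_, r1 - r, ?_⟩
      · rw [htx]
        exact fun h => hj ((hx0 _).1 h)
      · rw [map_sub, ← hr, h10, htx, hDtx]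
        ring
    · intro i hi hS
      obtain ⟨h9, r1, h10⟩ := (hT i).1 hi
      rw [htx] at h9 h10
      rw [hDtx] at h10
      obtain ⟨h11, h12, h13⟩ := hSp2 a i i0 hS hi0
      obtain ⟨r, hr⟩ := hlam i i0 _ (he a).1 h11 h12 h13
      apply hl
      refine ⟨r - r1, ?_⟩
      rw [map_sub, ← hr, h10]
      ring

/-- Infinitely many integral points give a bad line in the direction of a derivation. -/
theorem engine {k L : Type} [Field k] [Field L] [Algebra k L] [IsAlgClosed k] [CharZero k]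
    [IsFF k L] {q n : ℕ} {ι κ : Type} [Finite ι] [Finite κ] (A : Fin q → Fin (n + 1) → L)
    (b : ι → Fin q → L) (d : ι → ℕ) (c : κ → Fin q → L) (e : κ → ℕ)
    (hd : ∀ a, 0 < d a ∧ (terms (b a) - 1) ^ 2 ≤ d a) (he : ∀ a, 0 < e a ∧ terms (c a) ^ 2 ≤ e a)
    (S : Finset (Place k L)) (l0 : Fin (n + 1)) (M : Set (Fin (n + 1) → L))
    (hinf' : M.Infinite)
    (hM1 : ∀ z ∈ M, z l0 = 1) (hM2 : ∀ z ∈ M, ∀ a, W A (b a) (d a) z = 0)
    (hM3 : ∀ z ∈ M, ∀ a, W A (c a) (e a) z ≠ 0 ∧ ∀ P ∉ S, ∀ l, z l ≠ 0 →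
        P.ord (W A (c a) (e a) z) ≤ e a * P.ord (z l)) :
    BadDer (cst L) (Set.range (mapOm k L)) M l0 A b d c e := by
  by_cases h : ∃ B : ℤ, ∀ z ∈ M, ∀ j, hgt k (z j) ≤ B
  · obtain ⟨B, hB⟩ := h
    exact eng_bdd A b d c e hd he S l0 M hinf' hM1 hM2 hM3 B hB
  · push Not at h
    -- a coordinate of unbounded height
    obtain ⟨j0, hj0⟩ : ∃ j0, ∀ B : ℤ, ∃ z ∈ M, B < hgt k (z j0) := by
      by_contra hcon
      push Not at hcon
      choose B hB using hcon
      obtain ⟨z, hz, j, hj⟩ := h (∑ j, max (B j) 0)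
      have h1 := hB j z hz
      have h2 := Finset.single_le_sum (f := fun j => max (B j) 0)
        (fun _ _ => le_max_right _ _) (Finset.mem_univ j)
      have h3 := le_max_left (B j) 0
      linarith
    choose g hgM hg using fun m : ℕ => hj0 (m : ℤ)
    refine eng_unb A b d c e hd he S l0 M hM1 hM2 hM3 g hgM j0 ?_
    intro hmem
    obtain ⟨B, hB⟩ := bdd_of_mem hmem
    have h1 : ∀ᶠ m : ℕ in (Filter.hyperfilter ℕ : Filter ℕ), B < (m : ℤ) := by
      refine Filter.Eventually.filter_mono Filter.hyperfilter_le_cofinite ?_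
      rw [Nat.cofinite_eq_atTop, Filter.eventually_atTop]
      refine ⟨B.toNat + 1, fun m hm => ?_⟩
      have := Int.self_le_toNat B
      omega
    obtain ⟨m, hm1, hm2⟩ := (hB.and h1).exists
    have := hg m
    linarith

end Pool.Agent.TH145.MG
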