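import Pool.Agent.TH145.MG.Bdd
import Pool.Agent.TH145.MW.Rig

/-!
Integral points of unbounded height.
-/

set_option autoImplicit false

open Finset FF Pool.Agent.W603.LV Pool.Agent.W603.PV Pool.Agent.W602.RG

namespace Pool.Agent.TH145.MG

open Pool.Agent.TH145.MW

/-- `D` is a derivation on the subfield `F` of `Ω`, with values in `Ω`. -/
structure IsDer {Ω : Type} [Field Ω] (F : Subfield Ω) (D : Ω → Ω) : Prop where
  add : ∀ a ∈ F, ∀ b ∈ F, D (a + b) = D a + D b
  mul : ∀ a ∈ F, ∀ b ∈ F, D (a * b) = a * D b + b * D a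

/-- There is a point `x` over `Ω`, on which all the polynomials vanish that vanish on `M`, and a
derivation `D` of `L(x)` over `L`, not zero, such that the direction `D x` gives a bad line. -/
def BadDer {L Ω : Type} [Field L] [Field Ω] {q n : ℕ} {ι κ : Type} (φ : L →+* Ω) (C : Set Ω)
    (M : Set (Fin (n + 1) → L)) (l0 : Fin (n + 1)) (A : Fin q → Fin (n + 1) → L)
    (b : ι → Fin q → L) (d : ι → ℕ) (c : κ → Fin q → L) (e : κ → ℕ) : Prop :=
  ∃ (x : Fin (n + 1) → Ω) (F : Subfield Ω) (D : Ω → Ω), IsDer F D ∧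
    (∀ r, φ r ∈ F ∧ D (φ r) = 0) ∧ (∀ i, x i ∈ F) ∧ x l0 = 1 ∧ (∃ i, D (x i) ≠ 0) ∧
    (∀ f : MvPolynomial (Fin (n + 1)) L, (∀ y ∈ M, MvPolynomial.eval y f = 0) →
      MvPolynomial.eval₂ φ x f = 0) ∧
    (∀ a l, clsum C (fun j i => φ (A j i)) x (fun i => D (x i)) (fun j => φ (b a j)) (d a) l
      = 0) ∧
    ∀ a, ∃ m, ∀ l, l - m ∉ C →
      clsum C (fun j i => φ (A j i)) x (fun i => D (x i)) (fun j => φ (c a j)) (e a) l = 0

theorem eval_mk {L : Type} [Field L] {n : ℕ} (g : ℕ → Fin (n + 1) → L)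
    (f : MvPolynomial (Fin (n + 1)) L) :
    MvPolynomial.eval₂ (cst L) (fun i => Om.mk fun m => g m i) f =
      Om.mk fun m => MvPolynomial.eval (g m) f := by
  have h1 : MvPolynomial.eval₂Hom (cst L) (fun i => Om.mk fun m => g m i) =
      (Pool.Agent.TH145.MF.mkHom L).comp
        (RingHom.pi fun m => (MvPolynomial.eval (g m) : MvPolynomial (Fin (n + 1)) L →+* L)) := by
    apply MvPolynomial.ringHom_ext
    · intro r
      rw [MvPolynomial.eval₂Hom_C, RingHom.comp_apply, Pool.Agent.TH145.MF.mkHom_apply, cst_apply]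
      congr 1
      funext m
      exact (MvPolynomial.eval_C r).symm
    · intro i
      rw [MvPolynomial.eval₂Hom_X', RingHom.comp_apply, Pool.Agent.TH145.MF.mkHom_apply]
      congr 1
      funext m
      exact (MvPolynomial.eval_X i).symm
  have h2 := congrArg (fun φ : MvPolynomial (Fin (n + 1)) L →+* Om L => φ f) h1
  exact h2

theorem dot_mk {L : Type} [Field L] {n : ℕ} (a : Fin (n + 1) → L) (g : ℕ → Fin (n + 1) → L) :
    (fun i => cst L (a i)) ⬝ᵥ (fun i => Om.mk fun m => g m i) = Om.mk fun m => a ⬝ᵥ g m := by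
  simp only [dotProduct]
  rw [Pool.Agent.W61.RG.GSP.mk_sum Finset.univ (fun l m => a l * g m l)]
  rfl

theorem sum_mk {L : Type} [Field L] {q : ℕ} (T : Finset (Fin q)) (c : Fin q → L)
    (g : ℕ → Fin q → L) (e : ℕ) :
    ∑ j ∈ T, cst L (c j) * (Om.mk fun m => g m j) ^ e =
      Om.mk fun m => ∑ j ∈ T, c j * g m j ^ e := by
  rw [Pool.Agent.W61.RG.GSP.mk_sum T (fun j m => c j * g m j ^ e)]
  refine Finset.sum_congr rfl fun j _ => ?_
  rw [← Pool.Agent.TH145.MF.mkHom_apply, ← map_pow]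
  rfl

theorem dvd_W {k L : Type} [Field k] [Field L] [Algebra k L] [CharZero k]
    [IsFF k L] {q n : ℕ} {κ : Type} [Finite κ] (A : Fin q → Fin (n + 1) → L)
    (c : κ → Fin q → L) (e : κ → ℕ) (S : Finset (Place k L)) (l0 : Fin (n + 1)) :
    ∃ S' : Finset (Place k L), S ⊆ S' ∧ ∀ z : Fin (n + 1) → L, z l0 = 1 →
      (∀ a, W A (c a) (e a) z ≠ 0 ∧ ∀ P ∉ S, ∀ l, z l ≠ 0 →
        P.ord (W A (c a) (e a) z) ≤ e a * P.ord (z l)) →
      ∀ a, ∀ P ∉ S', (e a : ℤ) ∣ P.ord (W A (c a) (e a) z) := by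
  classical
  have := Fintype.ofFinite κ
  obtain ⟨S1, hS1⟩ := exists_supp (k := k) (Finset.univ : Finset (κ × Fin q))
    (fun p => c p.1 p.2)
  obtain ⟨S2, hS2⟩ := exists_supp (k := k) (Finset.univ : Finset (Fin q × Fin (n + 1)))
    (fun p => A p.1 p.2)
  refine ⟨S ∪ (S1 ∪ S2), Finset.subset_union_left, ?_⟩
  intro z hz hzc a P hP
  have hP1 : P ∉ S := fun h => hP (Finset.mem_union_left _ h)
  have hP2 : P ∉ S1 := fun h => hP (Finset.mem_union_right _ (Finset.mem_union_left _ h))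
  have hP3 : P ∉ S2 := fun h => hP (Finset.mem_union_right _ (Finset.mem_union_right _ h))
  have hc0 : ∀ a j, P.ord (c a j) = 0 := by
    intro a j
    by_contra h
    exact hP2 (hS1 (a, j) (Finset.mem_univ _) P h)
  have hA0 : ∀ j l, P.ord (A j l) = 0 := by
    intro j l
    by_contra h
    exact hP3 (hS2 (j, l) (Finset.mem_univ _) P h)
  exact ord_W P A (fun j l => Or.inr (hA0 j l).symm.le) (c a)
    (fun j => Or.inr (hc0 a j).symm.le) z ⟨l0, by rw [hz]; exact one_ne_zero⟩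
    (hzc a).1 ((hzc a).2 P hP1)

theorem eng_unb {k L : Type} [Field k] [Field L] [Algebra k L] [IsAlgClosed k] [CharZero k]
    [IsFF k L] {q n : ℕ} {ι κ : Type} [Finite ι] [Finite κ] (A : Fin q → Fin (n + 1) → L)
    (b : ι → Fin q → L) (d : ι → ℕ) (c : κ → Fin q → L) (e : κ → ℕ)
    (hd : ∀ a, 0 < d a ∧ (terms (b a) - 1) ^ 2 ≤ d a) (he : ∀ a, 0 < e a ∧ terms (c a) ^ 2 ≤ e a)
    (S : Finset (Place k L)) (l0 : Fin (n + 1)) (M : Set (Fin (n + 1) → L))
    (hM1 : ∀ z ∈ M, z l0 = 1) (hM2 : ∀ z ∈ M, ∀ a, W A (b a) (d a) z = 0)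
    (hM3 : ∀ z ∈ M, ∀ a, W A (c a) (e a) z ≠ 0 ∧ ∀ P ∉ S, ∀ l, z l ≠ 0 →
        P.ord (W A (c a) (e a) z) ≤ e a * P.ord (z l)) (g : ℕ → Fin (n + 1) → L)
    (hgM : ∀ m, g m ∈ M) (j0 : Fin (n + 1)) (hj0 : (Om.mk fun m => g m j0) ∉ EE k L) :
    BadDer (cst L) (Set.range (mapOm k L)) M l0 A b d c e := by
  classical
  have := Fintype.ofFinite ι
  have := Fintype.ofFinite κ
  obtain ⟨S3, hS3, hdvd⟩ := dvd_W A c e S l0
  obtain ⟨S1, hS1⟩ := exists_supp (k := k) (Finset.univ : Finset (ι × Fin q))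
    (fun p => b p.1 p.2)
  obtain ⟨S2, hS2⟩ := exists_supp (k := k) (Finset.univ : Finset (κ × Fin q))
    (fun p => c p.1 p.2)
  obtain ⟨S', hS'⟩ : ∃ S', S' = S3 ∪ (S1 ∪ S2) := ⟨_, rfl⟩
  have hb0 : ∀ a, ∀ P ∉ S', ∀ j, P.ord (b a j) = 0 := by
    intro a P hP j
    by_contra h
    exact hP (by rw [hS']; exact Finset.mem_union_right _ (Finset.mem_union_left _
      (hS1 (a, j) (Finset.mem_univ _) P h)))
  have hc0 : ∀ a, ∀ P ∉ S', ∀ j, P.ord (c a j) = 0 := by
    intro a P hP j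
    by_contra h
    exact hP (by rw [hS']; exact Finset.mem_union_right _ (Finset.mem_union_right _
      (hS2 (a, j) (Finset.mem_univ _) P h)))
  have hS3' : ∀ P ∉ S', P ∉ S3 := fun P hP h => hP (by
    rw [hS']; exact Finset.mem_union_left _ h)
  -- the derivation
  have hcE : CharZero (EE k L) :=
    charZero_of_injective_algebraMap (algebraMap k (EE k L)).injective
  have htr : Transcendental (EE k L) (Om.mk fun m => g m j0) := fun h =>
    hj0 (mem_of_isAlgebraic h)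
  obtain ⟨D, hD⟩ := Pool.Agent.W160.RG.DER.main (EE k L) (Om L) _ htr
  have hDE : ∀ z ∈ EE k L, D z = 0 := fun z hz => D.map_algebraMap (⟨z, hz⟩ : EE k L)
  obtain ⟨t, ht⟩ : ∃ t : Fin q → Om L, ∀ j, t j = Om.mk fun m => A j ⬝ᵥ g m :=
    ⟨_, fun _ => rfl⟩
  obtain ⟨x, hx⟩ : ∃ x : Fin (n + 1) → Om L, x = fun i => Om.mk fun m => g m i := ⟨_, rfl⟩
  have htx : ∀ j, (fun i => cst L (A j i)) ⬝ᵥ x = t j := by
    intro j
    rw [hx, dot_mk, ht]
  have hDt : ∀ j, (fun i => cst L (A j i)) ⬝ᵥ (fun i => D (x i)) = D (t j) := by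
    intro j
    rw [← htx j]
    simp only [dotProduct, map_sum]
    refine Finset.sum_congr rfl fun i _ => ?_
    rw [D.leibniz, hDE _ (cst_mem k L (A j i))]
    simp
  -- the log derivatives of elements with bounded ratio
  have hlam : ∀ i j (B : ℤ), t i ≠ 0 → t j ≠ 0 → (∀ᶠ m in (Filter.hyperfilter ℕ : Filter ℕ),
      hgt k (A i ⬝ᵥ g m / A j ⬝ᵥ g m) ≤ B) → D (t i) / t i = D (t j) / t j := by
    intro i j B hi hj h
    have h1 := mem_of_bdd h
    have h2 : t i = (Om.mk fun m => A i ⬝ᵥ g m / A j ⬝ᵥ g m) * t j := by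
      have h3 : (Om.mk fun m => A i ⬝ᵥ g m / A j ⬝ᵥ g m) = t i / t j := by
        rw [ht, ht, Om.mk_div]
      rw [h3, div_mul_cancel₀ _ hj]
    have h4 : D (t i) = (Om.mk fun m => A i ⬝ᵥ g m / A j ⬝ᵥ g m) * D (t j) := by
      conv_lhs => rw [h2]
      rw [D.leibniz, hDE _ h1]
      simp
    rw [div_eq_div_iff hi hj, h4]
    conv_rhs => rw [h2]
    ring
  have ht0 : ∀ j, t j ≠ 0 ↔ ∀ᶠ m in (Filter.hyperfilter ℕ : Filter ℕ), A j ⬝ᵥ g m ≠ 0 := by
    intro j
    rw [Ultrafilter.eventually_not, ht]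
    have h1 : (0 : Om L) = Om.mk fun _ => 0 := rfl
    rw [Ne, h1, Om.mk_eq]
  have hC : ∀ r : Om L, r ∈ Set.range (mapOm k L) ↔ r ∈ (mapOm k L).fieldRange :=
    fun r => Iff.rfl
  refine ⟨x, ⊤, D, ⟨fun a _ b _ => map_add D a b, fun a _ b _ => by
    rw [D.leibniz]; rfl⟩, fun r => ⟨Subfield.mem_top _, hDE _ (cst_mem k L r)⟩,
    fun i => Subfield.mem_top _, ?_, ⟨j0, by rw [hx]; exact hD⟩, ?_, ?_, ?_⟩
  · rw [hx]
    change (Om.mk fun m => g m l0) = Om.mk fun _ => 1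
    congr 1
    funext m
    exact hM1 _ (hgM m)
  · intro f hf
    rw [hx, eval_mk]
    have h1 : (0 : Om L) = Om.mk fun _ => 0 := rfl
    rw [h1]
    congr 1
    funext m
    exact hf _ (hgM m)
  · intro a l
    obtain ⟨B1, -, h1⟩ := blk (hd a).1 A (b a) S' (hb0 a)
    have h3 := fun m => h1 (g m) (Or.inl ⟨hM2 _ (hgM m) a, (hd a).2⟩)
    choose R Sp hR hSp hSe hSn hT using h3
    obtain ⟨T, hT', hTs⟩ := clsum_eq (Set.range (mapOm k L)) (fun j i => cst L (A j i)) x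
      (fun i => D (x i)) (fun j => cst L (b a j)) (d a) l
    rw [hTs]
    have h4 : ∑ j ∈ T, cst L (b a j) * ((fun i => cst L (A j i)) ⬝ᵥ x) ^ d a =
        Om.mk fun m => ∑ j ∈ T, b a j * (A j ⬝ᵥ g m) ^ d a := by
      rw [← sum_mk]
      exact Finset.sum_congr rfl fun j _ => by rw [htx, ht]
    rw [h4]
    have h5 : (0 : Om L) = Om.mk fun _ => 0 := rfl
    rw [h5, Om.mk_eq]
    have hTm : ∀ j, j ∈ T ↔ t j ≠ 0 ∧ D (t j) / t j - l ∈ Set.range (mapOm k L) := by
      intro j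
      rw [hT' j, htx, hDt]
    have h6 : ∀ᶠ m in (Filter.hyperfilter ℕ : Filter ℕ), ∀ i, i ∈ T → A i ⬝ᵥ g m ≠ 0 := by
      rw [Filter.eventually_all]
      intro i
      by_cases hi : i ∈ T
      · exact ((ht0 i).1 ((hTm i).1 hi).1).mono fun m hm _ => hm
      · exact Filter.Eventually.of_forall fun m h => absurd h hi
    have h7 : ∀ᶠ m in (Filter.hyperfilter ℕ : Filter ℕ), ∀ p : Fin q × Fin q, p.1 ∈ T →
        R m p.1 p.2 → p.2 ∈ T := by
      rw [Filter.eventually_all]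
      rintro ⟨i, j⟩
      by_cases hi : i ∈ T
      · by_cases hj : j ∈ T
        · exact Filter.Eventually.of_forall fun m _ _ => hj
        · have h8 : ¬ ∀ᶠ m in (Filter.hyperfilter ℕ : Filter ℕ), R m i j := by
            intro h9
            apply hj
            have hi0 := ((hTm i).1 hi).1
            have hj0' : t j ≠ 0 := (ht0 j).2 (h9.mono fun m hm => (hR m i j hm).2.1)
            refine (hTm j).2 ⟨hj0', ?_⟩
            rw [← hlam i j B1 hi0 hj0' (h9.mono fun m hm => (hR m i j hm).2.2)]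
            exact ((hTm i).1 hi).2
          rw [← Ultrafilter.eventually_not] at h8
          exact h8.mono fun m hm _ h => absurd h hm
      · exact Filter.Eventually.of_forall fun m h => absurd h hi
    exact (h6.and h7).mono fun m hm => hT m T (fun i hi => hm.1 i hi)
      (fun i hi j hij => hm.2 (i, j) hi hij) (fun i _ => hSn m (hM2 _ (hgM m) a) i)
  · intro a
    obtain ⟨B1, -, h1⟩ := blk (he a).1 A (c a) S' (hc0 a)
    have h3 := fun m => h1 (g m) (Or.inr ⟨(hM3 _ (hgM m) a).1, (he a).2, fun P hP =>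
      hdvd (g m) (hM1 _ (hgM m)) (hM3 _ (hgM m)) a P (hS3' P hP)⟩)
    choose R Sp hR hSp hSe hSn hT using h3
    obtain ⟨i0, hi0⟩ : ∃ i0, ∀ᶠ m in (Filter.hyperfilter ℕ : Filter ℕ), Sp m i0 := by
      by_contra hcon
      push Not at hcon
      have h4 : ∀ i, ∀ᶠ m in (Filter.hyperfilter ℕ : Filter ℕ), ¬ Sp m i := hcon
      obtain ⟨m, hm⟩ := (Filter.eventually_all.2 h4).exists
      obtain ⟨i, hi⟩ := hSe m (hM3 _ (hgM m) a).1
      exact hm i hi
    have hti0 : t i0 ≠ 0 := (ht0 i0).2 (hi0.mono fun m hm => (hSp m i0 i0 hm hm).1)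
    refine ⟨D (t i0) / t i0, fun l hl => ?_⟩
    obtain ⟨T, hT', hTs⟩ := clsum_eq (Set.range (mapOm k L)) (fun j i => cst L (A j i)) x
      (fun i => D (x i)) (fun j => cst L (c a j)) (e a) l
    rw [hTs]
    have h4 : ∑ j ∈ T, cst L (c a j) * ((fun i => cst L (A j i)) ⬝ᵥ x) ^ e a =
        Om.mk fun m => ∑ j ∈ T, c a j * (A j ⬝ᵥ g m) ^ e a := by
      rw [← sum_mk]
      exact Finset.sum_congr rfl fun j _ => by rw [htx, ht]
    rw [h4]
    have h5 : (0 : Om L) = Om.mk fun _ => 0 := rfl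
    rw [h5, Om.mk_eq]
    have hTm : ∀ j, j ∈ T ↔ t j ≠ 0 ∧ D (t j) / t j - l ∈ Set.range (mapOm k L) := by
      intro j
      rw [hT' j, htx, hDt]
    have h6 : ∀ᶠ m in (Filter.hyperfilter ℕ : Filter ℕ), ∀ i, i ∈ T → A i ⬝ᵥ g m ≠ 0 := by
      rw [Filter.eventually_all]
      intro i
      by_cases hi : i ∈ T
      · exact ((ht0 i).1 ((hTm i).1 hi).1).mono fun m hm _ => hm
      · exact Filter.Eventually.of_forall fun m h => absurd h hi
    have h7 : ∀ᶠ m in (Filter.hyperfilter ℕ : Filter ℕ), ∀ p : Fin q × Fin q, p.1 ∈ T →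
        R m p.1 p.2 → p.2 ∈ T := by
      rw [Filter.eventually_all]
      rintro ⟨i, j⟩
      by_cases hi : i ∈ T
      · by_cases hj : j ∈ T
        · exact Filter.Eventually.of_forall fun m _ _ => hj
        · have h8 : ¬ ∀ᶠ m in (Filter.hyperfilter ℕ : Filter ℕ), R m i j := by
            intro h9
            apply hj
            have hi0 := ((hTm i).1 hi).1
            have hj0' : t j ≠ 0 := (ht0 j).2 (h9.mono fun m hm => (hR m i j hm).2.1)
            refine (hTm j).2 ⟨hj0', ?_⟩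
            rw [← hlam i j B1 hi0 hj0' (h9.mono fun m hm => (hR m i j hm).2.2)]
            exact ((hTm i).1 hi).2
          rw [← Ultrafilter.eventually_not] at h8
          exact h8.mono fun m hm _ h => absurd h hm
      · exact Filter.Eventually.of_forall fun m h => absurd h hi
    have h8 : ∀ᶠ m in (Filter.hyperfilter ℕ : Filter ℕ), ∀ i, i ∈ T → ¬ Sp m i := by
      rw [Filter.eventually_all]
      intro i
      by_cases hi : i ∈ T
      · have h9 : ¬ ∀ᶠ m in (Filter.hyperfilter ℕ : Filter ℕ), Sp m i := by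
          intro h9
          have h10 := hlam i i0 B1 ((hTm i).1 hi).1 hti0
            ((h9.and hi0).mono fun m hm => (hSp m i i0 hm.1 hm.2).2.2)
          have h11 := ((hTm i).1 hi).2
          rw [h10] at h11
          apply hl
          obtain ⟨r, hr⟩ := h11
          exact ⟨-r, by rw [map_neg, hr, neg_sub]⟩
        rw [← Ultrafilter.eventually_not] at h9
        exact h9.mono fun m hm _ => hm
      · exact Filter.Eventually.of_forall fun m h => absurd h hi
    exact ((h6.and h7).and h8).mono fun m hm => hT m T (fun i hi => hm.1.1 i hi)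
      (fun i hi j hij => hm.1.2 (i, j) hi hij) (fun i hi => hm.2 i hi)

end Pool.Agent.TH145.MG
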