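import Pool.Agent.TH145.MG.Cnt
import Pool.Agent.TH145.MG.Unb

/-!
Derivations and algebraic elements.
-/

set_option autoImplicit false

open Finset Polynomial

namespace Pool.Agent.TH145.MG

namespace IsDer

variable {Ω : Type} [Field Ω] {F : Subfield Ω} {D : Ω → Ω} (hD : IsDer F D)
include hD

theorem zero : D 0 = 0 := by
  have h := hD.add 0 (zero_mem _) 0 (zero_mem _)
  rw [add_zero] at h
  exact left_eq_add.1 h

theorem one : D 1 = 0 := by
  have h := hD.mul 1 (one_mem _) 1 (one_mem _)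
  rw [mul_one, one_mul] at h
  exact left_eq_add.1 h

theorem neg {a : Ω} (ha : a ∈ F) : D (-a) = - D a := by
  have h := hD.add a ha (-a) (neg_mem ha)
  rw [add_neg_cancel, hD.zero] at h
  exact (neg_eq_of_add_eq_zero_right h.symm).symm

theorem inv {a : Ω} (ha : a ∈ F) (ha0 : a ≠ 0) : D a⁻¹ = - D a / a ^ 2 := by
  have h := hD.mul a ha a⁻¹ (inv_mem ha)
  rw [mul_inv_cancel₀ ha0, hD.one] at h
  field_simp at h ⊢
  linear_combination -h

theorem sum {α : Type} (s : Finset α) (f : α → Ω) (hf : ∀ i ∈ s, f i ∈ F) :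
    D (∑ i ∈ s, f i) = ∑ i ∈ s, D (f i) := by
  classical
  induction s using Finset.induction_on with
  | empty => rw [Finset.sum_empty, Finset.sum_empty, hD.zero]
  | insert a s ha ih =>
    rw [Finset.sum_insert ha, Finset.sum_insert ha,
      hD.add _ (hf a (Finset.mem_insert_self _ _)) _
        (sum_mem fun i hi => hf i (Finset.mem_insert_of_mem hi)),
      ih fun i hi => hf i (Finset.mem_insert_of_mem hi)]

theorem pow {a : Ω} (ha : a ∈ F) (m : ℕ) : D (a ^ m) = m * a ^ (m - 1) * D a := by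
  induction m with
  | zero => rw [pow_zero, hD.one, Nat.cast_zero, zero_mul, zero_mul]
  | succ m ih =>
    rw [pow_succ, hD.mul _ (pow_mem ha m) _ ha, ih, Nat.add_sub_cancel]
    cases m with
    | zero => simp
    | succ m =>
      rw [Nat.add_sub_cancel]
      push_cast
      ring

/-- The elements of `F ∩ H` whose derivative lies in `H`. -/
def sub (H : Subfield Ω) : Subfield Ω where
  carrier := {v | v ∈ F ∧ v ∈ H ∧ D v ∈ H}
  mul_mem' := by
    rintro a b ⟨h1, h2, h3⟩ ⟨h4, h5, h6⟩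
    refine ⟨mul_mem h1 h4, mul_mem h2 h5, ?_⟩
    rw [hD.mul a h1 b h4]
    exact add_mem (mul_mem h2 h6) (mul_mem h5 h3)
  one_mem' := ⟨one_mem _, one_mem _, by rw [hD.one]; exact zero_mem _⟩
  add_mem' := by
    rintro a b ⟨h1, h2, h3⟩ ⟨h4, h5, h6⟩
    refine ⟨add_mem h1 h4, add_mem h2 h5, ?_⟩
    rw [hD.add a h1 b h4]
    exact add_mem h3 h6
  zero_mem' := ⟨zero_mem _, zero_mem _, by rw [hD.zero]; exact zero_mem _⟩
  neg_mem' := by
    rintro a ⟨h1, h2, h3⟩
    refine ⟨neg_mem h1, neg_mem h2, ?_⟩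
    rw [hD.neg h1]
    exact neg_mem h3
  inv_mem' := by
    rintro a ⟨h1, h2, h3⟩
    by_cases ha : a = 0
    · rw [ha, inv_zero]
      exact ⟨zero_mem _, zero_mem _, by rw [hD.zero]; exact zero_mem _⟩
    · refine ⟨inv_mem h1, inv_mem h2, ?_⟩
      rw [hD.inv h1 ha]
      exact div_mem (neg_mem h3) (pow_mem h2 2)

/-- The derivative of an element algebraic over `F ∩ H ∩ D⁻¹ H` lies in `H` if the element does. -/
theorem mem_of_alg [CharZero Ω] (H : Subfield Ω) {v : Ω} (hvF : v ∈ F) (hvH : v ∈ H)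
    (hv : IsAlgebraic (hD.sub H) v) : D v ∈ H := by
  have hint : IsIntegral (hD.sub H) v := hv.isIntegral
  have hcz : CharZero (hD.sub H) := SubsemiringClass.instCharZero _
  obtain ⟨p, hp⟩ : ∃ p, p = minpoly (hD.sub H) v := ⟨_, rfl⟩
  have hirr : Irreducible p := hp ▸ minpoly.irreducible hint
  have hpv : aeval v p = 0 := hp ▸ minpoly.aeval _ v
  have hp' : aeval v (derivative p) ≠ 0 := by
    have h1 : p.Separable := hirr.separable
    exact h1.aeval_derivative_ne_zero hpv
  have hc : ∀ i, (p.coeff i : Ω) ∈ F ∧ (p.coeff i : Ω) ∈ H ∧ D (p.coeff i : Ω) ∈ H :=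
    fun i => (p.coeff i).2
  have h1 : ∑ i ∈ range (p.natDegree + 1), (p.coeff i : Ω) * v ^ i = 0 := by
    rw [← hpv, aeval_eq_sum_range]
    exact Finset.sum_congr rfl fun i _ => rfl
  have h2 : aeval v (derivative p) =
      ∑ i ∈ range (p.natDegree + 1), (p.coeff i : Ω) * (i * v ^ (i - 1)) := by
    rw [aeval_def, ← eval_map, ← derivative_map, derivative_eval,
      sum_over_range _ fun i => by rw [zero_mul, zero_mul], natDegree_map]
    refine Finset.sum_congr rfl fun i _ => ?_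
    rw [coeff_map, mul_assoc]
    rfl
  have h3 := congrArg D h1
  rw [hD.zero, hD.sum _ _ fun i _ => mul_mem (hc i).1 (pow_mem hvF i)] at h3
  have h4 : ∀ i, D ((p.coeff i : Ω) * v ^ i) = (p.coeff i : Ω) * (i * v ^ (i - 1)) * D v +
      v ^ i * D (p.coeff i : Ω) := by
    intro i
    rw [hD.mul _ (hc i).1 _ (pow_mem hvF i), hD.pow hvF]
    ring
  simp only [h4, Finset.sum_add_distrib, ← Finset.sum_mul] at h3
  rw [← h2] at h3
  have h5 : D v = - (∑ i ∈ range (p.natDegree + 1), v ^ i * D (p.coeff i : Ω)) /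
      aeval v (derivative p) := by
    rw [eq_div_iff hp']
    linear_combination h3
  rw [h5]
  refine div_mem (neg_mem (sum_mem fun i _ => mul_mem (pow_mem hvH i) (hc i).2.2)) ?_
  rw [h2]
  exact sum_mem fun i _ => mul_mem (hc i).2.1 (mul_mem (natCast_mem _ _) (pow_mem hvH _))

end IsDer

end Pool.Agent.TH145.MG
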