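import Pool.Agent.TH145.MG.Core
import Pool.Agent.TH145.MG.Der
import Pool.Agent.TH145.MF.FF

/-!
Counting transcendence degrees on a bad line through a point of a variety.
-/

set_option autoImplicit false

open Finset

namespace Pool.Agent.TH145.MG

theorem cl_closed {k Ω : Type} [Field k] [Field Ω] [Algebra k Ω] {S : Set Ω} {v : Ω}
    (h : IsAlgebraic (cl k S).toSubfield v) : v ∈ cl k S := by
  rw [mem_cl]
  have h1 : IsAlgebraic (algebraicClosure (IntermediateField.adjoin k S) Ω) v := h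
  exact h1.restrictScalars (IntermediateField.adjoin k S)

theorem core2 {k K Ω : Type} [Field k] [Field K] [CharZero K] [Field Ω] [Algebra k K]
    [Algebra k Ω] {M : Type}
    [Fintype M] [Nonempty M] (σ : M → K →ₐ[k] Ω) (C : Set K)
    (hC : ∀ r ∈ C, ∀ m m', σ m r = σ m' r) {q n : ℕ} (A : Fin q → Fin (n + 1) → K)
    (hind : AlgebraicIndependent k
      (fun p : M × (Fin q × Fin (n + 1)) => σ p.1 (A p.2.1 p.2.2)))
    (x : Fin (n + 1) → K) (F : Subfield K) (D : K → K) (hD : IsDer F D)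
    (hkF : ∀ r : k, algebraMap k K r ∈ F ∧ D (algebraMap k K r) = 0) (hxF : ∀ i, x i ∈ F)
    (i0 i1 : Fin (n + 1)) (hx0 : x i0 = 1) (hu1 : D (x i1) ≠ 0)
    (I : Finset (Fin (n + 1))) (hI : ∀ i, x i ∈ cl k (x '' I))
    (hz : ∀ j, A j ⬝ᵥ x = 0 → A j ⬝ᵥ (fun i => D (x i)) = 0)
    (ρ : Fin q → Fin q) (hρ : ∀ j, A j ⬝ᵥ x ≠ 0 → A (ρ j) ⬝ᵥ x ≠ 0 ∧ ρ (ρ j) = ρ j ∧
      A j ⬝ᵥ (fun i => D (x i)) / A j ⬝ᵥ x - A (ρ j) ⬝ᵥ (fun i => D (x i)) / A (ρ j) ⬝ᵥ x ∈ C)
    (E0 : Finset (Fin q))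
    (hE : ∀ j, A j ⬝ᵥ x ≠ 0 → ρ j = j → j ∉ E0 → ∃ (T : Finset (Fin q)) (c : Fin q → k)
      (e : ℕ), 0 < e ∧ j ∈ T ∧ c j ≠ 0 ∧ (∀ l ∈ T, A l ⬝ᵥ x ≠ 0 ∧ (l ≠ j → ρ l ≠ l)) ∧
        ∑ l ∈ T, algebraMap k K (c l) * (A l ⬝ᵥ x) ^ e = 0) :
    Fintype.card M * q ≤ Fintype.card M * (2 * I.card + E0.card) + q := by
  classical
  obtain ⟨u, hu⟩ : ∃ u : Fin (n + 1) → K, u = fun i => D (x i) := ⟨_, rfl⟩
  rw [← hu] at hz
  simp only [← hu] at hρ
  have hu0 : u i0 = 0 := by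
    rw [hu]
    simp only [hx0]
    exact hD.one
  have hu1' : u i1 ≠ 0 := by rw [hu]; exact hu1
  let J : Type := (M × ((I ⊕ I) ⊕ ((Fin q × {i : Fin (n + 1) // i ≠ i1}) ⊕ E0))) ⊕ Fin q
  obtain ⟨m0⟩ := (inferInstance : Nonempty M)
  let g : J → Ω := Sum.elim
    (fun p => Sum.elim
      (Sum.elim (fun i => σ p.1 (x i.1)) (fun i => σ p.1 (u i.1)))
      (Sum.elim (fun r => σ p.1 (if r.2.1 = i0 then
        (if ρ r.1 = r.1 then A r.1 ⬝ᵥ u / A r.1 ⬝ᵥ x else A r.1 ⬝ᵥ x) else A r.1 r.2.1))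
        (fun j => σ p.1 (A j.1 ⬝ᵥ x))) p.2)
    (fun j => σ m0 (A j ⬝ᵥ u / A j ⬝ᵥ x - A (ρ j) ⬝ᵥ u / A (ρ j) ⬝ᵥ x))
  have hi : i0 ≠ i1 := by
    rintro rfl
    exact hu1' hu0
  have key : ∀ m j i, σ m (A j i) ∈ cl k (Set.range g) := by
    intro m
    let H : Subfield K := (cl k (Set.range g)).toSubfield.comap (σ m).toRingHom
    have hH : ∀ v, v ∈ H ↔ σ m v ∈ cl k (Set.range g) := fun v => Iff.rfl
    have hHc : ∀ v, IsAlgebraic H v → v ∈ H := by
      intro v hv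
      rw [hH]
      apply cl_closed
      let f : H →+* (cl k (Set.range g)).toSubfield :=
        ((σ m).toRingHom.comp H.subtype).codRestrict (cl k (Set.range g)).toSubfield
          fun v => v.2
      exact hv.ringHom_of_comp_eq f (σ m).toRingHom f.injective rfl
    have hkH : ∀ r : k, algebraMap k K r ∈ H := by
      intro r
      rw [hH, (σ m).commutes]
      exact (cl k (Set.range g)).algebraMap_mem r
    have hgH : ∀ p : (I ⊕ I) ⊕
        ((Fin q × {i : Fin (n + 1) // i ≠ i1}) ⊕ E0), g (Sum.inl (m, p)) ∈ cl k (Set.range g) :=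
      fun p => subset_cl ⟨_, rfl⟩
    have hxI : ∀ i ∈ I, x i ∈ H ∧ D (x i) ∈ H := by
      intro i hi'
      refine ⟨(hH _).2 (hgH (Sum.inl (Sum.inl ⟨i, hi'⟩))), ?_⟩
      have h2 : σ m (u i) ∈ cl k (Set.range g) := hgH (Sum.inl (Sum.inr ⟨i, hi'⟩))
      have h3 : D (x i) = u i := by rw [hu]
      rw [h3]
      exact (hH _).2 h2
    have hle : (IntermediateField.adjoin k (x '' I)).toSubfield ≤ hD.sub H := by
      rw [IntermediateField.adjoin_toSubfield, Subfield.closure_le]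
      rintro _ (⟨r, rfl⟩ | ⟨i, hi', rfl⟩)
      · refine ⟨(hkF r).1, hkH r, ?_⟩
        rw [(hkF r).2]
        exact zero_mem _
      · exact ⟨hxF i, hxI i hi'⟩
    have hxsub : ∀ i, IsAlgebraic (hD.sub H) (x i) := fun i =>
      Pool.Agent.TH145.MF.alg_mono (F1 := (IntermediateField.adjoin k (x '' I)).toSubfield)
        hle (mem_cl.1 (hI i))
    have hxH : ∀ i, x i ∈ H := by
      intro i
      refine hHc _ (Pool.Agent.TH145.MF.alg_mono (F1 := hD.sub H) ?_ (hxsub i))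
      exact fun v hv => hv.2.1
    have huH : ∀ i, u i ∈ H := by
      intro i
      rw [hu]
      exact hD.mem_of_alg H (hxF i) (hxH i) (hxsub i)
    have h1 : ∀ j i, A j i ∈ H := by
      refine elim H ?_ A x u i0 i1 hx0 hu0 hu1' (fun i _ => hxH i) (fun i _ => huH i) hz ?_ ρ
        ?_ ?_ ?_ ?_
      · intro v e he hv
        rw [hH, map_pow] at hv
        exact (hH v).2 (root_cl he hv)
      · intro j i h0 h1
        have h2 := hgH (Sum.inr (Sum.inl (j, ⟨i, h1⟩)))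
        simp only [g, Sum.elim_inl, Sum.elim_inr, if_neg h0] at h2
        exact (hH _).2 h2
      · intro j hj
        obtain ⟨h2, h3, h4⟩ := hρ j hj
        refine ⟨h2, h3, (hH _).2 ?_⟩
        rw [hC _ h4 m m0]
        exact subset_cl ⟨Sum.inr j, rfl⟩
      · intro j hj hρj
        have h2 := hgH (Sum.inr (Sum.inl (j, ⟨i0, hi⟩)))
        simp only [g, Sum.elim_inl, Sum.elim_inr, if_true, if_neg hρj] at h2
        exact (hH _).2 h2
      · intro j hj hρj
        have h2 := hgH (Sum.inr (Sum.inl (j, ⟨i0, hi⟩)))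
        simp only [g, Sum.elim_inl, Sum.elim_inr, if_true, if_pos hρj] at h2
        exact (hH _).2 h2
      · intro j hj hρj
        by_cases hjE : j ∈ E0
        · left
          exact (hH _).2 (hgH (Sum.inr (Sum.inr ⟨j, hjE⟩)))
        · right
          obtain ⟨T, c, e, he, hjT, hcj, hT, hs⟩ := hE j hj hρj hjE
          exact ⟨T, fun l => algebraMap k K (c l), e, he, hjT, (map_ne_zero _).2 hcj,
            fun l hl => ⟨(hT l hl).1, hkH _, (hT l hl).2⟩, hs⟩
    exact fun j i => (hH _).1 (h1 j i)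
  have h2 := card_le _ hind g fun p => key p.1 p.2.1 p.2.2
  have h3 : ∀ a : Fin (n + 1), Fintype.card {i : Fin (n + 1) // i ≠ a} = n := by
    intro a
    rw [Fintype.card_subtype_compl, Fintype.card_fin, Fintype.card_subtype_eq]
    rfl
  simp only [J, Nat.card_eq_fintype_card, Fintype.card_prod, Fintype.card_sum, Fintype.card_fin,
    h3, Fintype.card_coe] at h2
  have h4 : Fintype.card M * (q * (n + 1)) = Fintype.card M * q + Fintype.card M * (q * n) := by
    ring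
  have h5 : Fintype.card M * (I.card + I.card + (q * n + E0.card)) + q =
      (Fintype.card M * (2 * I.card + E0.card) + q) + Fintype.card M * (q * n) := by ring
  rw [h4, h5] at h2
  exact Nat.add_le_add_iff_right.1 h2

end Pool.Agent.TH145.MG
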