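import Pool.Agent.TH145.MG.NoBad
import Pool.Agent.TH145.MG.Core2

/-!
There are no bad lines for linear forms with independent coefficients, through the points of a
variety of small dimension.
-/

set_option autoImplicit false

open Finset

namespace Pool.Agent.TH145.MG

open Pool.Agent.TH145.MW

theorem noBad2 {K : Type} [Field K] [CharZero K] (k1 : Subfield K) {k : Type} [Field k]
    [Algebra k k1] [Algebra k K] [IsScalarTower k k1 K]
    (s : K) (hs : Transcendental k1 s) {q n : ℕ} (τ : Fin (q + 1) → (Fin q × Fin (n + 1)) → k1)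
    (hτ : AlgebraicIndependent k (fun p : Fin (q + 1) × (Fin q × Fin (n + 1)) => τ p.1 p.2))
    (A : Fin q → Fin (n + 1) → K)
    (hA : ∀ j i, A j i = ∑ r, (τ r (j, i) : K) * s ^ (r : ℕ)) (x : Fin (n + 1) → K)
    (F : Subfield K) (D : K → K) (hD : IsDer F D)
    (hkF : ∀ r : k, algebraMap k K r ∈ F ∧ D (algebraMap k K r) = 0)
    (hAF : ∀ j i, A j i ∈ F ∧ D (A j i) = 0) (hxF : ∀ i, x i ∈ F)
    (i0 i1 : Fin (n + 1)) (hx0 : x i0 = 1) (hu1 : D (x i1) ≠ 0)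
    (I : Finset (Fin (n + 1))) (hI : ∀ i, x i ∈ cl k (x '' I))
    (c : Fin q → K) (hc : ∀ j, c j ≠ 0) (e : ℕ) (he : 0 < e) (Sp : Set K)
    (hSp : ∀ l l', l ∈ Sp → l' ∈ Sp → l - l' ∈ k1) (δ : ℕ) (hδ : (δ = 0 ∧ Sp = ∅) ∨ δ = 1)
    (hsum : ∀ l, l ∉ Sp → clsum (k1 : Set K) A x (fun i => D (x i)) c e l = 0) :
    ((∀ j, ∃ r : k, algebraMap k K r = c j) → q ≤ 2 * I.card + δ) ∧ q ≤ 4 * I.card + δ := by
  classical
  -- the embeddings
  obtain ⟨Ω, _, _, σ, hσ⟩ := exists_emb k1 s hs (Fin (q + 1))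
  let _ : Algebra k Ω := Algebra.compHom Ω (algebraMap k k1)
  have : IsScalarTower k k1 Ω := IsScalarTower.of_algebraMap_eq fun _ => rfl
  have hind := conj_indep (I := Fin q × Fin (n + 1)) σ s hσ τ hτ (fun p => A p.1 p.2)
    (fun p => hA p.1 p.2)
  have hz : ∀ j, A j ⬝ᵥ x = 0 → A j ⬝ᵥ (fun i => D (x i)) = 0 := by
    intro j hj
    have h1 : D (A j ⬝ᵥ x) = A j ⬝ᵥ (fun i => D (x i)) := by
      simp only [dotProduct]
      rw [hD.sum _ _ fun i _ => mul_mem (hAF j i).1 (hxF i)]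
      refine Finset.sum_congr rfl fun i _ => ?_
      rw [hD.mul _ (hAF j i).1 _ (hxF i), (hAF j i).2, mul_zero, add_zero]
    rw [← h1, hj, hD.zero]
  obtain ⟨u, hu⟩ : ∃ u : Fin (n + 1) → K, u = fun i => D (x i) := ⟨_, rfl⟩
  rw [← hu] at hz hsum
  -- the classes
  obtain ⟨lam, hlamdef⟩ : ∃ lam : Fin q → K, ∀ j, lam j = A j ⬝ᵥ u / A j ⬝ᵥ x := ⟨_, fun _ => rfl⟩
  obtain ⟨S, hS⟩ : ∃ S : Fin q → Finset (Fin q), ∀ j l, l ∈ S j ↔ A l ⬝ᵥ x ≠ 0 ∧
      lam l - lam j ∈ k1 := ⟨fun j => univ.filter fun l => A l ⬝ᵥ x ≠ 0 ∧ lam l - lam j ∈ k1,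
    fun j l => by simp⟩
  have hSself : ∀ j, A j ⬝ᵥ x ≠ 0 → j ∈ S j := by
    intro j hj
    rw [hS, sub_self]
    exact ⟨hj, zero_mem _⟩
  have hSeq : ∀ j l, l ∈ S j → S l = S j := by
    intro j l hl
    rw [hS] at hl
    ext i
    rw [hS, hS]
    refine and_congr_right fun _ => ⟨fun h => ?_, fun h => ?_⟩
    · have := add_mem h hl.2
      rwa [sub_add_sub_cancel] at this
    · have := sub_mem h hl.2
      rwa [sub_sub_sub_cancel_right] at this
  obtain ⟨ρ, hρ1, hρ2⟩ : ∃ ρ : Fin q → Fin q, (∀ j, A j ⬝ᵥ x ≠ 0 → ρ j ∈ S j) ∧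
      ∀ j l, A j ⬝ᵥ x ≠ 0 → A l ⬝ᵥ x ≠ 0 → S j = S l → ρ j = ρ l := by
    refine ⟨fun j => if h : (S j).Nonempty then (S j).min' h else j, ?_, ?_⟩
    · intro j hj
      have h1 : (S j).Nonempty := ⟨j, hSself j hj⟩
      simp only [dif_pos h1]
      exact Finset.min'_mem _ _
    · intro j l hj hl hjl
      have h1 : (S j).Nonempty := ⟨j, hSself j hj⟩
      have h2 : (S l).Nonempty := ⟨l, hSself l hl⟩
      simp only [dif_pos h1, dif_pos h2]
      congr 1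
  have hρP : ∀ j, A j ⬝ᵥ x ≠ 0 → A (ρ j) ⬝ᵥ x ≠ 0 := fun j hj => ((hS _ _).1 (hρ1 j hj)).1
  have hρρ : ∀ j, A j ⬝ᵥ x ≠ 0 → ρ (ρ j) = ρ j := fun j hj =>
    hρ2 _ _ (hρP j hj) hj (hSeq _ _ (hρ1 j hj))
  have hρl : ∀ j, A j ⬝ᵥ x ≠ 0 → lam j - lam (ρ j) ∈ k1 := by
    intro j hj
    have h1 := ((hS _ _).1 (hρ1 j hj)).2
    have h2 := neg_mem h1
    rwa [neg_sub] at h2
  have hρS : ∀ j l, A j ⬝ᵥ x ≠ 0 → ρ j = j → l ∈ S j → ρ l = j := by
    intro j l hj hρj hl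
    rw [hρ2 l j ((hS _ _).1 hl).1 hj (hSeq _ _ hl), hρj]
  have hcore : ∀ E0 : Finset (Fin q), (∀ j, A j ⬝ᵥ x ≠ 0 → ρ j = j → j ∉ E0 →
      ∃ (T : Finset (Fin q)) (c : Fin q → k)
      (e : ℕ), 0 < e ∧ j ∈ T ∧ c j ≠ 0 ∧ (∀ l ∈ T, A l ⬝ᵥ x ≠ 0 ∧ (l ≠ j → ρ l ≠ l)) ∧
        ∑ l ∈ T, algebraMap k K (c l) * (A l ⬝ᵥ x) ^ e = 0) → q ≤ 2 * I.card + E0.card := by
    intro E0 hE
    have h1 := core2 (fun m => (σ m).restrictScalars k) (k1 : Set K) (fun r hr m m' => by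
        change σ m (algebraMap k1 K ⟨r, hr⟩) = σ m' (algebraMap k1 K ⟨r, hr⟩)
        rw [(σ m).commutes, (σ m').commutes]) A hind x F D hD hkF hxF i0 i1 hx0 hu1 I hI
      (by rw [← hu]; exact hz) ρ (fun j hj => by
        rw [← hu]
        refine ⟨hρP j hj, hρρ j hj, ?_⟩
        rw [← hlamdef, ← hlamdef]
        exact hρl j hj) E0 hE
    rw [Fintype.card_fin] at h1
    exact core_card rfl h1
  -- the sums of the classes
  have hcl : ∀ j, lam j ∉ Sp → ∑ l ∈ S j, c l * (A l ⬝ᵥ x) ^ e = 0 := by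
    intro j hj
    have h1 := hsum _ hj
    unfold clsum at h1
    rw [← h1]
    refine Finset.sum_congr ?_ fun _ _ => rfl
    ext l
    rw [hS, Finset.mem_filter, hlamdef l]
    simp only [Finset.mem_univ, true_and]
    rfl
  obtain ⟨R, hR⟩ : ∃ R : Finset (Fin q), ∀ j, j ∈ R ↔ A j ⬝ᵥ x ≠ 0 ∧ ρ j = j :=
    ⟨univ.filter fun j => A j ⬝ᵥ x ≠ 0 ∧ ρ j = j, fun j => by simp⟩
  obtain ⟨R', hR'⟩ : ∃ R' : Finset (Fin q), ∀ j, j ∈ R' ↔ j ∈ R ∧ lam j ∈ Sp :=
    ⟨R.filter fun j => lam j ∈ Sp, fun j => by simp⟩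
  have hR'card : R'.card ≤ δ := by
    rcases hδ with ⟨h1, h2⟩ | h1
    · rw [h1]
      have h3 : R' = ∅ := by
        rw [Finset.eq_empty_iff_forall_notMem]
        intro j hj
        have h4 := ((hR' j).1 hj).2
        rw [h2] at h4
        exact h4
      rw [h3, Finset.card_empty]
    · rw [h1, Finset.card_le_one]
      intro a ha b hb
      obtain ⟨ha1, ha2⟩ := (hR' a).1 ha
      obtain ⟨hb1, hb2⟩ := (hR' b).1 hb
      rw [hR] at ha1 hb1
      have h2 : a ∈ S b := (hS _ _).2 ⟨ha1.1, hSp _ _ ha2 hb2⟩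
      rw [← ha1.2]
      exact hρS b a hb1.1 hb1.2 h2
  constructor
  · intro hck
    choose c' hc' using hck
    have h1 := hcore R' (fun j hj hρj hjR => by
      have h2 : lam j ∉ Sp := fun h => hjR ((hR' j).2 ⟨(hR j).2 ⟨hj, hρj⟩, h⟩)
      refine ⟨S j, c', e, he, hSself j hj, ?_, fun l hl => ⟨((hS _ _).1 hl).1, fun hlj hρl => ?_⟩,
        ?_⟩
      · intro h0
        apply hc j
        rw [← hc' j, h0, map_zero]
      · exact hlj (hρl.symm.trans (hρS j l hj hρj hl))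
      · rw [← hcl j h2]
        refine Finset.sum_congr rfl fun l _ => ?_
        rw [← hc' l])
    omega
  · have h1 := hcore R (fun j hj hρj hjR => absurd ((hR j).2 ⟨hj, hρj⟩) hjR)
    -- partners
    have h2 : ∀ j ∈ R \ R', ∃ l, l ∉ R ∧ ρ l = j := by
      intro j hj
      obtain ⟨hjR, hjR'⟩ := Finset.mem_sdiff.1 hj
      obtain ⟨hj0, hρj⟩ := (hR j).1 hjR
      have h3 : lam j ∉ Sp := fun h => hjR' ((hR' j).2 ⟨hjR, h⟩)
      have h4 := hcl j h3
      by_contra hcon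
      push Not at hcon
      have h5 : S j = {j} := by
        apply Finset.eq_singleton_iff_unique_mem.2
        refine ⟨hSself j hj0, fun l hl => ?_⟩
        by_contra hlj
        have h6 := hρS j l hj0 hρj hl
        refine hcon l (fun hlR => hlj ?_) h6
        rw [← ((hR l).1 hlR).2, h6]
      rw [h5, Finset.sum_singleton] at h4
      rcases mul_eq_zero.1 h4 with h6 | h6
      · exact hc j h6
      · exact pow_ne_zero _ hj0 h6
    choose! π hπ1 hπ2 using h2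
    have h3 : (R \ R').card ≤ (univ \ R).card := by
      refine Finset.card_le_card_of_injOn π (fun j hj => ?_) (fun a ha b hb hab => ?_)
      · exact Finset.mem_coe.2 (Finset.mem_sdiff.2 ⟨Finset.mem_univ _, hπ1 j hj⟩)
      · rw [← hπ2 a ha, ← hπ2 b hb, hab]
    have h4 : (univ \ R).card = q - R.card := by
      rw [Finset.card_sdiff_of_subset (Finset.subset_univ R), Finset.card_univ, Fintype.card_fin]
    have h5 : R.card ≤ q := (Finset.card_le_univ R).trans (by rw [Fintype.card_fin])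
    have h6 : (R \ R').card = R.card - R'.card := by
      rw [Finset.card_sdiff_of_subset fun j hj => ((hR' j).1 hj).1]
    omega

end Pool.Agent.TH145.MG
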