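import Pool.Agent.TH145.MG.Dim
import Pool.Agent.TH145.MG.Eng
import Pool.Agent.TH145.MG.NoBad2
import Pool.Agent.TH145.MW.Int

/-!
Finiteness of integral points on varieties, with respect to sums of powers of linear forms with
independent coefficients.
-/

set_option autoImplicit false

open Finset FF Pool.Agent.W603.LV LinearAlgebra.Projectivization Pool.Agent.W602.RG

namespace Pool.Agent.TH145.MG

open Pool.Agent.TH145.MW

/-- The coefficients `c_j` are not zero, and `q > 2 d + δ` if they lie in `k`, and `q > 4 d + δ`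
if they do not lie in `k`. -/
def Enough (k : Type) {K : Type} [Field k] [Field K] [Algebra k K] {q : ℕ} (d δ : ℕ)
    (c : Fin q → K) : Prop :=
  (∀ j, c j ≠ 0) ∧ (((∀ j, c j ∈ Set.range (algebraMap k K)) ∧ 2 * d + δ < q) ∨ 4 * d + δ < q)

/-- The points of the projective variety `V`. -/
def PtsV {k : Type} (K : Type) [Field k] [Field K] [Algebra k K] {n : ℕ}
    (V : Set (MvPolynomial (Fin (n + 1)) k)) : Set (ℙ K (Fin (n + 1) → K)) :=
  {p | ∃ (x : Fin (n + 1) → K) (hx : x ≠ 0), p = Projectivization.mk K x hx ∧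
    ∀ f ∈ V, MvPolynomial.aeval x f = 0}

theorem aeval_smul {k K : Type} [Field k] [Field K] [Algebra k K] {n m : ℕ}
    {f : MvPolynomial (Fin (n + 1)) k} (hf : f.IsHomogeneous m) (a : K) (x : Fin (n + 1) → K) :
    MvPolynomial.aeval (a • x) f = a ^ m * MvPolynomial.aeval x f := by
  simp only [MvPolynomial.aeval_def, MvPolynomial.eval₂_eq', Finset.mul_sum]
  refine Finset.sum_congr rfl fun u hu => ?_
  have h1 : ∑ i, u i = m := by
    have h2 := hf (MvPolynomial.mem_support_iff.1 hu)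
    rw [Finsupp.weight_apply, Finsupp.sum_fintype] at h2
    · simpa using h2
    · intro i; simp
  have h3 : ∏ i, (a • x) i ^ u i = a ^ m * ∏ i, x i ^ u i := by
    simp only [Pi.smul_apply, smul_eq_mul, mul_pow]
    rw [Finset.prod_mul_distrib, Finset.prod_pow_eq_pow_sum, h1]
  rw [h3]
  ring

/-- Finiteness of the points with a given coordinate `1` over a function field. -/
theorem fin_L {k K : Type} [Field k] [Field K] [Algebra k K] (k1 : Subfield K)
    (hac : IsAlgClosed k1) (hcz : CharZero k1) (L : IntermediateField k1 K) (hL : IsFF k1 L)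
    (hk : ∀ r : k, algebraMap k K r ∈ k1) (s : L) (hs : (s : K) ∉ k1) {q n : ℕ}
    (τ : Fin (q + 1) × (Fin q × Fin (n + 1)) → K) (hτ1 : ∀ p, τ p ∈ k1)
    (hτ : AlgebraicIndependent k τ) (A : Fin q → Fin (n + 1) → L)
    (hA : ∀ j i, (A j i : K) = ∑ r, τ (r, (j, i)) * (s : K) ^ (r : ℕ))
    (V : Set (MvPolynomial (Fin (n + 1)) k)) {dd : ℕ} (hV : DimLE k V dd) {ι κ : Type}
    [Finite ι] [Finite κ]
    (b : ι → Fin q → L) (d : ι → ℕ) (c : κ → Fin q → L) (e : κ → ℕ)
    (hd : ∀ a, 0 < d a ∧ (terms (b a) - 1) ^ 2 ≤ d a) (he : ∀ a, 0 < e a ∧ terms (c a) ^ 2 ≤ e a)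
    (h : (∃ a, Enough k dd 0 (fun j => (b a j : K))) ∨ ∃ a, Enough k dd 1 (fun j => (c a j : K)))
    (S : Finset (Place k1 L)) (l0 : Fin (n + 1)) :
    {z : Fin (n + 1) → L | z l0 = 1 ∧
      (∀ a, W A (b a) (d a) z = 0) ∧ (∀ a, W A (c a) (e a) z ≠ 0 ∧ ∀ P ∉ S, ∀ l, z l ≠ 0 →
        P.ord (W A (c a) (e a) z) ≤ e a * P.ord (z l)) ∧
      ∀ f ∈ V, MvPolynomial.aeval (fun i => (z i : K)) f = 0}.Finite := by
  classical
  by_contra hinf
  obtain ⟨M, hM⟩ : ∃ M, M = {z : Fin (n + 1) → L | z l0 = 1 ∧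
      (∀ a, W A (b a) (d a) z = 0) ∧ (∀ a, W A (c a) (e a) z ≠ 0 ∧ ∀ P ∉ S, ∀ l, z l ≠ 0 →
        P.ord (W A (c a) (e a) z) ≤ e a * P.ord (z l)) ∧
      ∀ f ∈ V, MvPolynomial.aeval (fun i => (z i : K)) f = 0} := ⟨_, rfl⟩
  rw [← hM] at hinf
  have hM' : ∀ z ∈ M, z l0 = 1 ∧
      (∀ a, W A (b a) (d a) z = 0) ∧ (∀ a, W A (c a) (e a) z ≠ 0 ∧ ∀ P ∉ S, ∀ l, z l ≠ 0 →
        P.ord (W A (c a) (e a) z) ≤ e a * P.ord (z l)) ∧
      ∀ f ∈ V, MvPolynomial.aeval (fun i => (z i : K)) f = 0 := fun z hz => by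
    rw [hM] at hz; exact hz
  obtain ⟨x, F, D, hD, hLF, hxF, hx0, ⟨i1, hi1⟩, hpoly, hb, hc⟩ := engine A b d c e hd he S l0 M hinf
    (fun z hz => (hM' z hz).1) (fun z hz => (hM' z hz).2.1) (fun z hz => (hM' z hz).2.2.1)
  -- the fields
  let C : Subfield (Om L) := (mapOm k1 L).fieldRange
  let ψ : k →+* k1 := (algebraMap k K).codRestrict k1 hk
  let θ : k →+* L := (algebraMap k1 L).comp ψ
  let e1 : Om k1 →+* C := (mapOm k1 L).rangeRestrictField
  have he1 : ∀ w, (e1 w : Om L) = mapOm k1 L w := fun w => rfl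
  let _ : Algebra k k1 := ψ.toAlgebra
  let _ : Algebra k C := (e1.comp ((cst k1).comp ψ)).toAlgebra
  let _ : Algebra k (Om L) := ((cst L).comp θ).toAlgebra
  have hcstmap : ∀ w : k1, mapOm k1 L (cst k1 w) = cst L (algebraMap k1 L w) := fun w => rfl
  have : IsScalarTower k C (Om L) := IsScalarTower.of_algebraMap_eq fun r => rfl
  have hcK : CharZero K := charZero_of_injective_algebraMap (algebraMap k1 K).injective
  have hcL : CharZero L := charZero_of_injective_algebraMap (algebraMap k1 L).injective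
  have hcOm : CharZero (Om L) := charZero_of_injective_algebraMap (algebraMap L (Om L)).injective
  have hacOm : IsAlgClosed (Om k1) := Pool.Agent.W917.RG.GAC.main k1
  have hbij : Function.Bijective e1 := by
    refine ⟨e1.injective, ?_⟩
    rintro ⟨w, v, hv⟩
    exact ⟨v, Subtype.ext hv⟩
  have hacC : IsAlgClosed C := IsAlgClosed.of_ringEquiv (Om k1) C (RingEquiv.ofBijective e1 hbij)
  have hsC : cst L s ∉ C := by
    rintro ⟨w, hw⟩
    obtain ⟨u, rfl⟩ := Om.mk_surj w
    rw [mapOm_mk, cst_apply, Om.mk_eq] at hw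
    obtain ⟨m, hm⟩ := hw.exists
    apply hs
    rw [← hm]
    exact (u m).2
  have hsT : Transcendental C (cst L s) := Pool.Agent.TH145.MF.transcendental_of_notMem hacC hsC
  -- the independent elements
  let τ1 : Fin (q + 1) × (Fin q × Fin (n + 1)) → k1 := fun p => ⟨τ p, hτ1 p⟩
  have hτ1i : AlgebraicIndependent k τ1 := by
    let f : k1 →ₐ[k] K := { toRingHom := k1.subtype, commutes' := fun r => rfl }
    apply AlgebraicIndependent.of_comp f
    exact hτ
  let f1 : k1 →ₐ[k] C := { toRingHom := e1.comp (cst k1), commutes' := fun r => rfl }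
  have hτC : AlgebraicIndependent k
      (fun p : Fin (q + 1) × (Fin q × Fin (n + 1)) => f1 (τ1 (p.1, p.2))) :=
    hτ1i.map' (f := f1) f1.toRingHom.injective
  have hAL : ∀ j i, cst L (A j i) = ∑ r, ((f1 (τ1 (r, (j, i))) : C) : Om L) *
      cst L s ^ (r : ℕ) := by
    intro j i
    have h1 : A j i = ∑ r, algebraMap k1 L (τ1 (r, (j, i))) * s ^ (r : ℕ) := by
      apply Subtype.ext
      rw [hA j i]
      push_cast
      rfl
    rw [h1, map_sum]
    refine Finset.sum_congr rfl fun r _ => ?_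
    rw [map_mul, map_pow]
    rfl
  -- the dimension
  have hxV : ∀ f ∈ V, MvPolynomial.aeval x f = 0 := by
    intro f hf
    have h1 := hpoly (MvPolynomial.map θ f) (by
      intro y hy
      have h2 := (hM' y hy).2.2.2 f hf
      apply Subtype.ext
      have h3 : ((MvPolynomial.eval y (MvPolynomial.map θ f) : L) : K) =
          MvPolynomial.aeval (fun i => (y i : K)) f := by
        rw [MvPolynomial.eval_map, MvPolynomial.aeval_def]
        have h4 := MvPolynomial.hom_eval₂ f θ (algebraMap L K) y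
        refine Eq.trans h4 ?_
        rfl
      rw [h3, h2]
      rfl)
    rw [MvPolynomial.eval₂_map] at h1
    exact h1
  obtain ⟨I, hIc, hI⟩ := exists_basis x l0 hx0 (hV (Om L) x (by
    intro h0
    rw [h0] at hx0
    exact zero_ne_one hx0) hxV)
  have hkF : ∀ r : k, algebraMap k (Om L) r ∈ F ∧ D (algebraMap k (Om L) r) = 0 :=
    fun r => hLF (θ r)
  have key := fun (c : Fin q → L) (hc0 : ∀ j, c j ≠ 0) =>
    noBad2 C (k := k) (cst L s) hsT (fun r p => f1 (τ1 (r, p))) hτC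
      (fun j i => cst L (A j i)) hAL x F D hD hkF (fun j i => hLF _) hxF l0 i1 hx0 hi1 I hI
      (fun j => cst L (c j)) (fun j => (map_ne_zero _).2 (hc0 j))
  have key2 : ∀ c : Fin q → L, (∀ j, (c j : K) ∈ Set.range (algebraMap k K)) →
      ∀ j, ∃ r : k, algebraMap k (Om L) r = cst L (c j) := by
    intro c hc j
    obtain ⟨r, hr⟩ := hc j
    refine ⟨r, ?_⟩
    change cst L (θ r) = cst L (c j)
    congr 1
    apply Subtype.ext
    exact hr
  rcases h with ⟨a, ha1, ha2⟩ | ⟨a, ha1, ha2⟩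
  · obtain ⟨h1, h2⟩ := key (b a) (fun j h0 => ha1 j (by
        change ((b a j : L) : K) = 0
        rw [h0]; rfl)) (d a) (hd a).1 ∅
      (fun l l' h => h.elim) 0 (Or.inl ⟨rfl, rfl⟩) (fun l _ => hb a l)
    rcases ha2 with ⟨h3, h4⟩ | h4
    · have h5 := h1 (key2 _ h3)
      omega
    · omega
  · obtain ⟨m, hm⟩ := hc a
    obtain ⟨h1, h2⟩ := key (c a) (fun j h0 => ha1 j (by
        change ((c a j : L) : K) = 0
        rw [h0]; rfl)) (e a) (he a).1
      {l | l - m ∈ (C : Set (Om L))}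
      (fun l l' h h' => by
        have h3 : l - m ∈ C := h
        have h4 : l' - m ∈ C := h'
        have h5 := sub_mem h3 h4
        rwa [sub_sub_sub_cancel_right] at h5) 1 (Or.inr rfl) (fun l hl => hm l hl)
    rcases ha2 with ⟨h3, h4⟩ | h4
    · have h5 := h1 (key2 _ h3)
      omega
    · omega

end Pool.Agent.TH145.MG
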