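import Pool.Agent.TH145.MG.Cnt
import Pool.Agent.W602.GT.SpDefs

/-!
The dimension of a projective variety.
-/

set_option autoImplicit false

open Finset AlgebraicIndependent MvPolynomial Pool.Agent.W602.GT

namespace Pool.Agent.TH145.MG

/-- The projective variety given by the forms `f ∈ V` has dimension at most `d`: for each point `x`
over an extension field of `k`, the ratios of the coordinates of `x` generate a field of
transcendence degree at most `d` over `k`. -/
def DimLE (k : Type) [Field k] {n : ℕ} (V : Set (MvPolynomial (Fin (n + 1)) k)) (d : ℕ) : Prop :=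
  ∀ (Ω : Type) [Field Ω] [Algebra k Ω] (x : Fin (n + 1) → Ω), x ≠ 0 →
    (∀ f ∈ V, aeval x f = 0) → Algebra.trdeg k (coords k x) ≤ d

theorem exists_basis {k K : Type} [Field k] [Field K] [Algebra k K] {n d : ℕ}
    (x : Fin (n + 1) → K) (i0 : Fin (n + 1)) (hx0 : x i0 = 1)
    (h : Algebra.trdeg k (coords k x) ≤ d) :
    ∃ I : Finset (Fin (n + 1)), I.card ≤ d ∧ ∀ i, x i ∈ cl k (x '' I) := by
  classical
  have hxc : ∀ i, x i ∈ coords k x := by
    intro i
    apply IntermediateField.subset_adjoin
    exact ⟨i, i0, by rw [hx0]; exact one_ne_zero, by rw [hx0, div_one]⟩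
  obtain ⟨B, hB⟩ := (matroid k K).exists_isBasis (Set.range x)
  have hBi : AlgebraicIndependent k ((↑) : B → K) := hB.indep
  have hBx : B ⊆ Set.range x := hB.subset
  have hBfin : B.Finite := (Set.finite_range x).subset hBx
  have hcl : ∀ i, x i ∈ (matroid k K).closure B := fun i => hB.subset_closure ⟨i, rfl⟩
  have := hBfin.fintype
  choose f hf using fun b : B => hBx b.2
  have hBc : Fintype.card B ≤ d := by
    let y : B → coords k x := fun b => ⟨b.1, by rw [← hf b]; exact hxc _⟩
    have hy : AlgebraicIndependent k y := by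
      apply AlgebraicIndependent.of_comp (coords k x).val
      exact hBi
    have h1 := hy.cardinalMk_le_trdeg.trans h
    rw [Cardinal.mk_fintype] at h1
    exact_mod_cast h1
  refine ⟨Finset.univ.image f, ?_, ?_⟩
  · exact (Finset.card_image_le).trans (by rw [Finset.card_univ]; exact hBc)
  · intro i
    have h1 : x '' (Finset.univ.image f : Finset (Fin (n + 1))) = B := by
      ext z
      constructor
      · rintro ⟨i, hi, rfl⟩
        obtain ⟨b, -, rfl⟩ := Finset.mem_image.1 (Finset.mem_coe.1 hi)
        rw [hf b]
        exact b.2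
      · intro hz
        exact ⟨f ⟨z, hz⟩, Finset.mem_coe.2 (Finset.mem_image_of_mem _ (Finset.mem_univ _)),
          hf ⟨z, hz⟩⟩
    rw [h1, mem_cl_iff]
    exact hcl i

end Pool.Agent.TH145.MG
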