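import Mathlib

/-!
Algebraic closures of subfields generated by finite families, and transcendence degrees.
-/

set_option autoImplicit false

open AlgebraicIndependent

namespace Pool.Agent.TH145.MG

variable {k Ω : Type} [Field k] [Field Ω] [Algebra k Ω]

/-- The relative algebraic closure of the subfield generated by `S`. -/
noncomputable def cl (k : Type) {Ω : Type} [Field k] [Field Ω] [Algebra k Ω] (S : Set Ω) :
    IntermediateField k Ω :=
  (algebraicClosure (IntermediateField.adjoin k S) Ω).restrictScalars k

theorem mem_cl {S : Set Ω} {x : Ω} : x ∈ cl k S ↔ IsAlgebraic (IntermediateField.adjoin k S) x :=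
  mem_algebraicClosure_iff

theorem subset_cl {S : Set Ω} {x : Ω} (h : x ∈ S) : x ∈ cl k S :=
  mem_cl.2 (isAlgebraic_algebraMap (⟨x, IntermediateField.subset_adjoin _ _ h⟩ :
    IntermediateField.adjoin k S))

theorem root_cl {S : Set Ω} {x : Ω} {e : ℕ} (he : 0 < e) (h : x ^ e ∈ cl k S) : x ∈ cl k S :=
  mem_cl.2 ((mem_cl.1 h).of_pow he)

theorem mem_cl_iff {S : Set Ω} {x : Ω} : x ∈ cl k S ↔ x ∈ (matroid k Ω).closure S := by
  rw [mem_cl, matroid_closure_eq, IntermediateField.isAlgebraic_adjoin_iff]
  exact Iff.rfl

/-- An algebraically independent family in the algebraic closure of the field generated by the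
family `g` is not larger than `g`. -/
theorem card_le {I J : Type} [Finite I] [Finite J] (z : I → Ω) (hz : AlgebraicIndependent k z)
    (g : J → Ω) (h : ∀ i, z i ∈ cl k (Set.range g)) : Nat.card I ≤ Nat.card J := by
  have h1 : (matroid k Ω).Indep (Set.range z) := hz.to_subtype_range
  have h2 : (Set.range z).encard ≤ (Set.range g).encard := by
    refine (h1.encard_le_eRk_of_subset (X := (matroid k Ω).closure (Set.range g)) ?_).trans ?_
    · rintro _ ⟨i, rfl⟩
      exact mem_cl_iff.1 (h i)
    · rw [Matroid.eRk_closure_eq]
      exact Matroid.eRk_le_encard _ _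
  have h3 : (Set.range z).ncard = Nat.card I := by
    rw [← Set.image_univ, Set.ncard_image_of_injective _ hz.injective, Set.ncard_univ]
  have h4 : (Set.range g).ncard ≤ Nat.card J := by
    rw [← Set.image_univ]
    exact (Set.ncard_image_le Set.finite_univ).trans (by rw [Set.ncard_univ])
  have h5 : (Set.range z).ncard ≤ (Set.range g).ncard := by
    have h6 := Set.finite_range z
    have h7 := Set.finite_range g
    rw [← h6.cast_ncard_eq, ← h7.cast_ncard_eq] at h2
    exact_mod_cast h2
  omega

/-- If an algebraically independent finite family `x` lies in the algebraic closure of the field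
generated by a family `y` with the same index set, then `y` is algebraically independent. -/
theorem indep_of_mem {I : Type} [Finite I] (x y : I → Ω) (hx : AlgebraicIndependent k x)
    (h : ∀ i, x i ∈ cl k (Set.range y)) : AlgebraicIndependent k y := by
  have h1 : (matroid k Ω).Indep (Set.range x) := hx.to_subtype_range
  have h2 : (Set.range x).encard ≤ (matroid k Ω).eRk (Set.range y) := by
    rw [← Matroid.eRk_closure_eq]
    refine h1.encard_le_eRk_of_subset ?_
    rintro _ ⟨i, rfl⟩
    exact mem_cl_iff.1 (h i)
  have h3 : (Set.range x).ncard = Nat.card I := by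
    rw [← Set.image_univ, Set.ncard_image_of_injective _ hx.injective, Set.ncard_univ]
  have h4 : (Set.range y).ncard ≤ Nat.card I := by
    rw [← Set.image_univ]
    exact (Set.ncard_image_le Set.finite_univ).trans (by rw [Set.ncard_univ])
  have h6 := Set.finite_range x
  have h7 := Set.finite_range y
  have h8 : (Set.range y).encard ≤ (matroid k Ω).eRk (Set.range y) := by
    refine le_trans ?_ h2
    rw [← h6.cast_ncard_eq, ← h7.cast_ncard_eq]
    exact_mod_cast h3 ▸ h4
  have h9 : (matroid k Ω).Indep (Set.range y) := by
    rw [Matroid.indep_iff_eRk_eq_encard_of_finite h7]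
    exact le_antisymm (Matroid.eRk_le_encard _ _) h8
  have h10 : Function.Injective y := by
    rw [← Set.injOn_univ]
    have h11 := h8.trans (Matroid.eRk_le_encard _ _)
    have h12 : (Set.range y).ncard = Nat.card I := by
      apply le_antisymm h4
      rw [← h3]
      have h13 := h2.trans (Matroid.eRk_le_encard _ _)
      rw [← h6.cast_ncard_eq, ← h7.cast_ncard_eq] at h13
      exact_mod_cast h13
    apply Set.injOn_of_ncard_image_eq _ Set.finite_univ
    rw [Set.image_univ, h12, Set.ncard_univ]
  exact (algebraicIndependent_subtype_range h10).1 h9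

end Pool.Agent.TH145.MG
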