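import Pool.Agent.TH145.MW.Mov

/-!
The elements of bounded height in the ultrapower of a function field.
-/

set_option autoImplicit false

open Finset FF Pool.Agent.W603.LV Pool.Agent.W603.PV Pool.Agent.W602.RG

namespace Pool.Agent.TH145.MG

open Pool.Agent.TH145.MW

section root

variable {k L : Type} [Field k] [Field L] [Algebra k L] [CharZero k] [IsFF k L]

theorem root_hgt (d : ℕ) (a : Fin d → L) (v : L) (h : v ^ d = ∑ i, a i * v ^ (i : ℕ)) :
    hgt k v ≤ ∑ i, hgt k (a i) := by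
  classical
  obtain ⟨T, hT⟩ := exists_supp (k := k) (Finset.univ : Finset (Option (Fin d)))
    (fun o => o.elim v a)
  have h1 : ∀ P : Place k L, P.ord v ≠ 0 → P ∈ T := fun P => hT none (Finset.mem_univ _) P
  have h2 : ∀ i, ∀ P : Place k L, P.ord (a i) ≠ 0 → P ∈ T :=
    fun i P => hT (some i) (Finset.mem_univ _) P
  rw [hgt_finset _ T h1]
  have h3 : ∑ i, hgt k (a i) = ∑ P ∈ T, ∑ i, max (-P.ord (a i)) 0 := by
    rw [Finset.sum_comm]
    exact Finset.sum_congr rfl fun i _ => hgt_finset _ T (h2 i)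
  rw [h3]
  refine Finset.sum_le_sum fun P _ => ?_
  have h0 : 0 ≤ ∑ i, max (-P.ord (a i)) 0 := Finset.sum_nonneg fun _ _ => le_max_right _ _
  by_cases hv : 0 ≤ P.ord v
  · rw [max_eq_right (by linarith)]
    exact h0
  push Not at hv
  rw [max_eq_left (by linarith)]
  have hv0 : v ≠ 0 := by
    rintro rfl
    rw [P.ord_zero] at hv
    exact lt_irrefl _ hv
  by_contra hcon
  push Not at hcon
  have h4 : ∀ i, Ge P (P.ord v + 1) (a i) := by
    intro i
    right
    have h5 := Finset.single_le_sum (f := fun i => max (-P.ord (a i)) 0)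
      (fun _ _ => le_max_right _ _) (Finset.mem_univ i)
    have h6 := le_max_left (-P.ord (a i)) 0
    linarith
  have h5 : Ge P (d * P.ord v + 1) (∑ i, a i * v ^ (i : ℕ)) := by
    refine Ge.sum _ _ fun i _ => ?_
    have h7 : Ge P (P.ord v) v := Or.inr le_rfl
    have h6 := (h4 i).mul (h7.pow (i : ℕ))
    refine h6.mono ?_
    have h8 : ((i : ℕ) : ℤ) + 1 ≤ d := by exact_mod_cast i.2
    nlinarith
  rw [← h] at h5
  rcases h5 with h6 | h6
  · exact pow_ne_zero _ hv0 h6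
  · rw [P.ord_pow] at h6
    linarith

omit [CharZero k] [IsFF k L] in
theorem hgt_const (c : k) : hgt k (algebraMap k L c) = 0 := by
  by_cases hc : c = 0
  · rw [hc, map_zero, hgt_zero]
  · rw [hgt_finset (algebraMap k L c) ∅ fun P hP => absurd (P.ord_const hc) hP, Finset.sum_empty]

end root

section bdd

variable (k L : Type) [Field k] [Field L] [Algebra k L] [IsAlgClosed k] [CharZero k] [IsFF k L]

omit [Field k] [Field L] [Algebra k L] [IsAlgClosed k] [CharZero k] [IsFF k L] in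
theorem mk_inv' {L : Type} [Field L] (u : ℕ → L) : (Om.mk u)⁻¹ = Om.mk fun m => (u m)⁻¹ := by
  rw [← one_div, ← Om.mk_one, Om.mk_div]
  congr 1
  funext m
  rw [one_div]

/-- the sequences of bounded height -/
noncomputable def BB : Subfield (Om L) where
  carrier := {z | ∃ (u : ℕ → L) (B : ℤ), z = Om.mk u ∧ ∀ m, hgt k (u m) ≤ B}
  mul_mem' := by
    rintro _ _ ⟨u, B, rfl, hu⟩ ⟨v, C, rfl, hv⟩
    exact ⟨fun m => u m * v m, B + C, Om.mk_mul _ _, fun m =>
      (hgt_mul_le (k := k) _ _).trans (add_le_add (hu m) (hv m))⟩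
  one_mem' := ⟨fun _ => 1, 0, rfl, fun _ => by rw [hgt_one]⟩
  add_mem' := by
    rintro _ _ ⟨u, B, rfl, hu⟩ ⟨v, C, rfl, hv⟩
    exact ⟨fun m => u m + v m, B + C, Om.mk_add _ _, fun m =>
      (hgt_add_le (k := k) _ _).trans (add_le_add (hu m) (hv m))⟩
  zero_mem' := ⟨fun _ => 0, 0, rfl, fun _ => by rw [hgt_zero]⟩
  neg_mem' := by
    rintro _ ⟨u, B, rfl, hu⟩
    exact ⟨fun m => - u m, B, rfl, fun m => by rw [hgt_neg]; exact hu m⟩
  inv_mem' := by
    rintro _ ⟨u, B, rfl, hu⟩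
    exact ⟨fun m => (u m)⁻¹, B, mk_inv' u, fun m => by rw [hgt_inv]; exact hu m⟩

theorem EE_le_BB : EE k L ≤ BB k L := by
  unfold EE
  rw [Subfield.closure_le]
  rintro _ (⟨x, rfl⟩ | ⟨x, rfl⟩)
  · exact ⟨fun _ => x, hgt k x, rfl, fun _ => le_rfl⟩
  · obtain ⟨u, rfl⟩ := Om.mk_surj x
    exact ⟨fun m => algebraMap k L (u m), 0, rfl, fun m => by rw [hgt_const]⟩

variable {k L}

theorem bdd_of_mem {v : ℕ → L} (h : Om.mk v ∈ EE k L) :
    ∃ B : ℤ, ∀ᶠ m in (Filter.hyperfilter ℕ : Filter ℕ), hgt k (v m) ≤ B := by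
  obtain ⟨u, B, huv, hu⟩ := EE_le_BB k L h
  rw [Om.mk_eq] at huv
  exact ⟨B, huv.mono fun m hm => by rw [hm]; exact hu m⟩

theorem mem_of_bdd {v : ℕ → L} {B : ℤ}
    (h : ∀ᶠ m in (Filter.hyperfilter ℕ : Filter ℕ), hgt k (v m) ≤ B) : Om.mk v ∈ EE k L := by
  classical
  obtain ⟨C, hC⟩ : ∃ C : ℤ, C = max B 0 := ⟨_, rfl⟩
  let u : ℕ → L := fun m => if hgt k (v m) ≤ B then v m else 0
  have hu : ∀ m, hgt k (u m) ≤ C := by
    intro m
    simp only [u]
    split_ifs with h1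
    · rw [hC]; exact h1.trans (le_max_left _ _)
    · rw [hgt_zero, hC]; exact le_max_right _ _
  have huv : Om.mk v = Om.mk u := by
    rw [Om.mk_eq]
    exact h.mono fun m hm => by simp only [u, if_pos hm]
  rw [huv]
  obtain ⟨V, hV, hVf⟩ := Pool.Agent.W369.RG.RIE.main k L 1 (∑ _j : Fin (1 + 1), C)
  have hφ : ∀ m, ∃ φ : L, φ ≠ 0 ∧ ∀ j : Fin (1 + 1), φ * (![1, u m] : Fin (1 + 1) → L) j ∈ V := by
    intro m
    refine hVf ![1, u m] ⟨0, one_ne_zero⟩ ?_
    have h1 := Pool.Agent.W603.PV.pht_le (k := k) (![1, u m] : Fin (1 + 1) → L) (l := 0)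
      (by exact one_ne_zero)
    refine h1.trans (Finset.sum_le_sum fun j _ => ?_)
    have h2 : (![1, u m] : Fin (1 + 1) → L) 0 = 1 := rfl
    rw [h2, div_one]
    fin_cases j
    · change hgt k (1 : L) ≤ C
      rw [hgt_one, hC]
      exact le_max_right _ _
    · exact hu m
  choose φ hφ0 hφV using hφ
  have h1 : Om.mk φ ∈ EE k L := by
    apply Pool.Agent.W61.RG.GSP.main k L V hV
    intro m
    have := hφV m 0
    change φ m * 1 ∈ V at this
    rwa [mul_one] at this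
  have h2 : Om.mk (fun m => φ m * u m) ∈ EE k L :=
    Pool.Agent.W61.RG.GSP.main k L V hV _ fun m => hφV m 1
  have h3 : Om.mk u = Om.mk (fun m => φ m * u m) / Om.mk φ := by
    rw [← Om.mk_mul, mul_div_cancel_left₀ _ (Om.mk_ne_zero hφ0)]
  rw [h3]
  exact div_mem h2 h1

/-- The subfield of the elements of bounded height is algebraically closed in the ultrapower. -/
theorem mem_of_isAlgebraic {z : Om L} (hz : IsAlgebraic (EE k L) z) : z ∈ EE k L := by
  classical
  obtain ⟨v, rfl⟩ := Om.mk_surj z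
  have hint : IsIntegral (EE k L) (Om.mk v) := hz.isIntegral
  obtain ⟨p, hp, hpz⟩ := hint
  have h1 : (Om.mk v) ^ p.natDegree =
      ∑ i : Fin p.natDegree, (-(p.coeff i : Om L)) * (Om.mk v) ^ (i : ℕ) := by
    rw [Polynomial.eval₂_eq_sum_range, Finset.sum_range_succ, hp.coeff_natDegree, map_one,
      one_mul] at hpz
    rw [Finset.sum_range] at hpz
    simp only [neg_mul, Finset.sum_neg_distrib]
    rw [eq_neg_iff_add_eq_zero, add_comm]
    exact hpz
  have h2 : ∀ i : Fin p.natDegree, ∃ a : ℕ → L, Om.mk a = -(p.coeff i : Om L) := fun i =>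
    Om.mk_surj _
  choose a ha using h2
  have h3 : ∀ i, ∃ B : ℤ, ∀ᶠ m in (Filter.hyperfilter ℕ : Filter ℕ), hgt k (a i m) ≤ B := by
    intro i
    apply bdd_of_mem
    rw [ha i]
    exact neg_mem (p.coeff i).2
  choose B hB using h3
  have h4 : ∀ᶠ m in (Filter.hyperfilter ℕ : Filter ℕ),
      v m ^ p.natDegree = ∑ i : Fin p.natDegree, a i m * v m ^ (i : ℕ) := by
    rw [← Om.mk_eq]
    have h5 : (Om.mk fun m => v m ^ p.natDegree) = (Om.mk v) ^ p.natDegree := by
      rw [← Pool.Agent.TH145.MF.mkHom_apply, ← Pool.Agent.TH145.MF.mkHom_apply, ← map_pow]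
      rfl
    have h6 : (Om.mk fun m => ∑ i : Fin p.natDegree, a i m * v m ^ (i : ℕ)) =
        ∑ i : Fin p.natDegree, Om.mk (a i) * (Om.mk v) ^ (i : ℕ) := by
      rw [Pool.Agent.W61.RG.GSP.mk_sum Finset.univ (fun i m => a i m * v m ^ ((i : Fin _) : ℕ))]
      refine Finset.sum_congr rfl fun i _ => ?_
      rw [← Pool.Agent.TH145.MF.mkHom_apply, ← Pool.Agent.TH145.MF.mkHom_apply,
        ← Pool.Agent.TH145.MF.mkHom_apply, ← map_pow, ← map_mul]
      rfl
    rw [h5, h6, h1]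
    exact Finset.sum_congr rfl fun i _ => by rw [ha i]
  refine mem_of_bdd (k := k) (B := ∑ i, B i) ?_
  have h5 := (Filter.eventually_all.2 hB).and h4
  exact h5.mono fun m hm => (root_hgt _ _ _ hm.2).trans (Finset.sum_le_sum fun i _ => hm.1 i)

end bdd

end Pool.Agent.TH145.MG
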