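import Pool.Agent.TH145.MG.Elim

/-!
Counting transcendence degrees on a bad line.
-/

set_option autoImplicit false

open Finset

namespace Pool.Agent.TH145.MG

theorem core {k K Ω : Type} [Field k] [Field K] [Field Ω] [Algebra k K] [Algebra k Ω] {M : Type}
    [Fintype M] [Nonempty M] (σ : M → K →ₐ[k] Ω) (C : Set K)
    (hC : ∀ r ∈ C, ∀ m m', σ m r = σ m' r) {q n : ℕ} (A : Fin q → Fin (n + 1) → K)
    (hind : AlgebraicIndependent k
      (fun p : M × (Fin q × Fin (n + 1)) => σ p.1 (A p.2.1 p.2.2)))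
    (x u : Fin (n + 1) → K) (i0 i1 : Fin (n + 1))
    (hx0 : x i0 = 1) (hu0 : u i0 = 0) (hu1 : u i1 ≠ 0)
    (hz : ∀ j, A j ⬝ᵥ x = 0 → A j ⬝ᵥ u = 0)
    (ρ : Fin q → Fin q) (hρ : ∀ j, A j ⬝ᵥ x ≠ 0 → A (ρ j) ⬝ᵥ x ≠ 0 ∧ ρ (ρ j) = ρ j ∧
      A j ⬝ᵥ u / A j ⬝ᵥ x - A (ρ j) ⬝ᵥ u / A (ρ j) ⬝ᵥ x ∈ C) (E0 : Finset (Fin q))
    (hE : ∀ j, A j ⬝ᵥ x ≠ 0 → ρ j = j → j ∉ E0 → ∃ (T : Finset (Fin q)) (c : Fin q → k)
      (e : ℕ), 0 < e ∧ j ∈ T ∧ c j ≠ 0 ∧ (∀ l ∈ T, A l ⬝ᵥ x ≠ 0 ∧ (l ≠ j → ρ l ≠ l)) ∧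
        ∑ l ∈ T, algebraMap k K (c l) * (A l ⬝ᵥ x) ^ e = 0) :
    Fintype.card M * q ≤ Fintype.card M * (2 * n + E0.card) + q := by
  classical
  let J : Type := (M × (({i : Fin (n + 1) // i ≠ i0} ⊕ {i : Fin (n + 1) // i ≠ i0}) ⊕
    ((Fin q × {i : Fin (n + 1) // i ≠ i1}) ⊕ E0))) ⊕ Fin q
  obtain ⟨m0⟩ := (inferInstance : Nonempty M)
  let g : J → Ω := Sum.elim
    (fun p => Sum.elim
      (Sum.elim (fun i => σ p.1 (x i.1)) (fun i => σ p.1 (u i.1)))
      (Sum.elim (fun r => σ p.1 (if r.2.1 = i0 then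
        (if ρ r.1 = r.1 then A r.1 ⬝ᵥ u / A r.1 ⬝ᵥ x else A r.1 ⬝ᵥ x) else A r.1 r.2.1))
        (fun j => σ p.1 (A j.1 ⬝ᵥ x))) p.2)
    (fun j => σ m0 (A j ⬝ᵥ u / A j ⬝ᵥ x - A (ρ j) ⬝ᵥ u / A (ρ j) ⬝ᵥ x))
  have hi : i0 ≠ i1 := by
    rintro rfl
    exact hu1 hu0
  have key : ∀ m j i, σ m (A j i) ∈ cl k (Set.range g) := by
    intro m
    let H : Subfield K := (cl k (Set.range g)).toSubfield.comap (σ m).toRingHom
    have hH : ∀ v, v ∈ H ↔ σ m v ∈ cl k (Set.range g) := fun v => Iff.rfl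
    have hkH : ∀ r : k, algebraMap k K r ∈ H := by
      intro r
      rw [hH, (σ m).commutes]
      exact (cl k (Set.range g)).algebraMap_mem r
    have hgH : ∀ p : ({i : Fin (n + 1) // i ≠ i0} ⊕ {i : Fin (n + 1) // i ≠ i0}) ⊕
        ((Fin q × {i : Fin (n + 1) // i ≠ i1}) ⊕ E0), g (Sum.inl (m, p)) ∈ cl k (Set.range g) :=
      fun p => subset_cl ⟨_, rfl⟩
    have h1 : ∀ j i, A j i ∈ H := by
      refine elim H ?_ A x u i0 i1 hx0 hu0 hu1 ?_ ?_ hz ?_ ρ ?_ ?_ ?_ ?_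
      · intro v e he hv
        rw [hH, map_pow] at hv
        exact (hH v).2 (root_cl he hv)
      · intro i hi'
        exact (hH _).2 (hgH (Sum.inl (Sum.inl ⟨i, hi'⟩)))
      · intro i hi'
        exact (hH _).2 (hgH (Sum.inl (Sum.inr ⟨i, hi'⟩)))
      · intro j i h0 h1
        have h2 := hgH (Sum.inr (Sum.inl (j, ⟨i, h1⟩)))
        simp only [g, Sum.elim_inl, Sum.elim_inr, if_neg h0] at h2
        exact (hH _).2 h2
      · intro j hj
        obtain ⟨h2, h3, h4⟩ := hρ j hj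
        refine ⟨h2, h3, (hH _).2 ?_⟩
        rw [hC _ h4 m m0]
        exact subset_cl ⟨Sum.inr j, rfl⟩
      · intro j hj hρj
        have h2 := hgH (Sum.inr (Sum.inl (j, ⟨i0, hi⟩)))
        simp only [g, Sum.elim_inl, Sum.elim_inr, if_true, if_neg hρj] at h2
        exact (hH _).2 h2
      · intro j hj hρj
        have h2 := hgH (Sum.inr (Sum.inl (j, ⟨i0, hi⟩)))
        simp only [g, Sum.elim_inl, Sum.elim_inr, if_true, if_pos hρj] at h2
        exact (hH _).2 h2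
      · intro j hj hρj
        by_cases hjE : j ∈ E0
        · left
          exact (hH _).2 (hgH (Sum.inr (Sum.inr ⟨j, hjE⟩)))
        · right
          obtain ⟨T, c, e, he, hjT, hcj, hT, hs⟩ := hE j hj hρj hjE
          exact ⟨T, fun l => algebraMap k K (c l), e, he, hjT, (map_ne_zero _).2 hcj,
            fun l hl => ⟨(hT l hl).1, hkH _, (hT l hl).2⟩, hs⟩
    exact fun j i => (hH _).1 (h1 j i)
  have h2 := card_le _ hind g fun p => key p.1 p.2.1 p.2.2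
  have h3 : ∀ a : Fin (n + 1), Fintype.card {i : Fin (n + 1) // i ≠ a} = n := by
    intro a
    rw [Fintype.card_subtype_compl, Fintype.card_fin, Fintype.card_subtype_eq]
    rfl
  simp only [J, Nat.card_eq_fintype_card, Fintype.card_prod, Fintype.card_sum, Fintype.card_fin,
    h3, Fintype.card_coe] at h2
  have h4 : Fintype.card M * (q * (n + 1)) = Fintype.card M * q + Fintype.card M * (q * n) := by
    ring
  have h5 : Fintype.card M * (n + n + (q * n + E0.card)) + q =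
      (Fintype.card M * (2 * n + E0.card) + q) + Fintype.card M * (q * n) := by ring
  rw [h4, h5] at h2
  exact Nat.add_le_add_iff_right.1 h2

/-- The same bound for a large number of embeddings. -/
theorem core_card {q N E M : ℕ} (hM : M = q + 1) (h : M * q ≤ M * (N + E) + q) : q ≤ N + E := by
  subst hM
  by_contra hcon
  push Not at hcon
  have h1 : (q + 1) * (N + E + 1) ≤ (q + 1) * q := Nat.mul_le_mul_left _ hcon
  have h2 : (q + 1) * (N + E + 1) = (q + 1) * (N + E) + q + 1 := by ring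
  omega

end Pool.Agent.TH145.MG
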