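import Pool.Agent.TH145.MG.Emb

/-!
Elimination: a bad line determines one coefficient of each linear form.
-/

set_option autoImplicit false

open Finset

namespace Pool.Agent.TH145.MG

theorem elim {K : Type} [Field K] (H : Subfield K)
    (hroot : ∀ (v : K) (e : ℕ), 0 < e → v ^ e ∈ H → v ∈ H) {q n : ℕ}
    (A : Fin q → Fin (n + 1) → K) (x u : Fin (n + 1) → K) (i0 i1 : Fin (n + 1))
    (hx0 : x i0 = 1) (hu0 : u i0 = 0) (hu1 : u i1 ≠ 0) (hx : ∀ i, i ≠ i0 → x i ∈ H)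
    (hu : ∀ i, i ≠ i0 → u i ∈ H)
    (hz : ∀ j, A j ⬝ᵥ x = 0 → A j ⬝ᵥ u = 0) (hA : ∀ j i, i ≠ i0 → i ≠ i1 → A j i ∈ H)
    (ρ : Fin q → Fin q) (hρ : ∀ j, A j ⬝ᵥ x ≠ 0 → A (ρ j) ⬝ᵥ x ≠ 0 ∧ ρ (ρ j) = ρ j ∧
      A j ⬝ᵥ u / A j ⬝ᵥ x - A (ρ j) ⬝ᵥ u / A (ρ j) ⬝ᵥ x ∈ H)
    (hP : ∀ j, A j ⬝ᵥ x ≠ 0 → ρ j ≠ j → A j ⬝ᵥ x ∈ H)
    (hL : ∀ j, A j ⬝ᵥ x ≠ 0 → ρ j = j → A j ⬝ᵥ u / A j ⬝ᵥ x ∈ H)
    (hE : ∀ j, A j ⬝ᵥ x ≠ 0 → ρ j = j → A j ⬝ᵥ x ∈ H ∨ ∃ (T : Finset (Fin q)) (c : Fin q → K)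
      (e : ℕ), 0 < e ∧ j ∈ T ∧ c j ≠ 0 ∧ (∀ l ∈ T, A l ⬝ᵥ x ≠ 0 ∧ c l ∈ H ∧ (l ≠ j → ρ l ≠ l)) ∧
        ∑ l ∈ T, c l * (A l ⬝ᵥ x) ^ e = 0) : ∀ j i, A j i ∈ H := by
  classical
  have hxH : ∀ i, x i ∈ H := by
    intro i
    by_cases h : i = i0
    · rw [h, hx0]; exact one_mem _
    · exact hx i h
  have huH : ∀ i, u i ∈ H := by
    intro i
    by_cases h : i = i0
    · rw [h, hu0]; exact zero_mem _
    · exact hu i h
  have hi : i1 ≠ i0 := by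
    rintro rfl
    exact hu1 hu0
  have hPH : ∀ j, A j ⬝ᵥ x ∈ H := by
    intro j
    by_cases h0 : A j ⬝ᵥ x = 0
    · rw [h0]; exact zero_mem _
    · by_cases h1 : ρ j = j
      · rcases hE j h0 h1 with h2 | ⟨T, c, e, he, hjT, hcj, hT, hs⟩
        · exact h2
        · apply hroot _ e he
          rw [← Finset.add_sum_erase T _ hjT] at hs
          have h3 : (A j ⬝ᵥ x) ^ e = - (∑ l ∈ T.erase j, c l * (A l ⬝ᵥ x) ^ e) / c j := by
            field_simp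
            linear_combination hs
          rw [h3]
          refine div_mem (neg_mem (sum_mem fun l hl => ?_)) (hT j hjT).2.1
          obtain ⟨h4, h5⟩ := Finset.mem_erase.1 hl
          obtain ⟨h6, h7, h8⟩ := hT l h5
          exact mul_mem h7 (pow_mem (hP l h6 (h8 h4)) e)
      · exact hP j h0 h1
  have hUH : ∀ j, A j ⬝ᵥ u ∈ H := by
    intro j
    by_cases h0 : A j ⬝ᵥ x = 0
    · rw [hz j h0]; exact zero_mem _
    · obtain ⟨h1, h2, h3⟩ := hρ j h0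
      have h4 := hL (ρ j) h1 h2
      have h5 : A j ⬝ᵥ u / A j ⬝ᵥ x ∈ H := by
        have h6 := add_mem h3 h4
        rwa [sub_add_cancel] at h6
      have h6 := mul_mem h5 (hPH j)
      rwa [div_mul_cancel₀ _ h0] at h6
  have hA1 : ∀ j, A j i1 ∈ H := by
    intro j
    have h1 : A j ⬝ᵥ u = A j i1 * u i1 + ∑ i ∈ univ.erase i1, A j i * u i :=
      (Finset.add_sum_erase univ (fun i => A j i * u i) (Finset.mem_univ i1)).symm
    have h2 : ∑ i ∈ univ.erase i1, A j i * u i ∈ H := by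
      refine sum_mem fun i hi' => ?_
      obtain ⟨h3, -⟩ := Finset.mem_erase.1 hi'
      by_cases h4 : i = i0
      · rw [h4, hu0, mul_zero]; exact zero_mem _
      · exact mul_mem (hA j i h4 h3) (huH i)
    have h3 : A j i1 = (A j ⬝ᵥ u - ∑ i ∈ univ.erase i1, A j i * u i) / u i1 := by
      rw [h1, add_sub_cancel_right, mul_div_cancel_right₀ _ hu1]
    rw [h3]
    exact div_mem (sub_mem (hUH j) h2) (huH i1)
  have hA0 : ∀ j, A j i0 ∈ H := by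
    intro j
    have h1 : A j ⬝ᵥ x = A j i0 * x i0 + ∑ i ∈ univ.erase i0, A j i * x i :=
      (Finset.add_sum_erase univ (fun i => A j i * x i) (Finset.mem_univ i0)).symm
    have h2 : ∑ i ∈ univ.erase i0, A j i * x i ∈ H := by
      refine sum_mem fun i hi' => ?_
      obtain ⟨h3, -⟩ := Finset.mem_erase.1 hi'
      by_cases h4 : i = i1
      · rw [h4]; exact mul_mem (hA1 j) (hxH i1)
      · exact mul_mem (hA j i h3 h4) (hxH i)
    have h3 : A j i0 = A j ⬝ᵥ x - ∑ i ∈ univ.erase i0, A j i * x i := by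
      rw [h1, hx0]; ring
    rw [h3]
    exact sub_mem (hPH j) h2
  intro j i
  by_cases h0 : i = i0
  · rw [h0]; exact hA0 j
  · by_cases h1 : i = i1
    · rw [h1]; exact hA1 j
    · exact hA j i h0 h1

end Pool.Agent.TH145.MG
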