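import Pool.Agent.TH145.MG.Cnt

/-!
Independent embeddings of a field.
-/

set_option autoImplicit false

namespace Pool.Agent.TH145.MG

theorem exists_emb1 {k1 K Ω : Type} [Field k1] [Field K] [Algebra k1 K] [Field Ω] [IsAlgClosed Ω]
    [Algebra k1 Ω] {t : Type} (b : t → K) (hb : IsTranscendenceBasis k1 b) (y : t → Ω)
    (hy : AlgebraicIndependent k1 y) : ∃ σ : K →ₐ[k1] Ω, ∀ i, σ (b i) = y i := by
  let L := IntermediateField.adjoin k1 (Set.range b)
  let ψ : L →ₐ[k1] Ω := (IsFractionRing.liftAlgHom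
    (algebraicIndependent_iff_injective_aeval.1 hy)).comp hb.1.reprField
  have hψ : ∀ i (h : b i ∈ L), ψ ⟨b i, h⟩ = y i := by
    intro i h
    have h1 : hb.1.reprField ⟨b i, h⟩ = algebraMap (MvPolynomial t k1)
        (FractionRing (MvPolynomial t k1)) (MvPolynomial.X i) := by
      change hb.1.aevalEquivField.symm _ = _
      rw [AlgEquiv.symm_apply_eq]
      apply Subtype.ext
      rw [hb.1.aevalEquivField_algebraMap_apply_coe, MvPolynomial.aeval_X]
    change (IsFractionRing.liftAlgHom
      (algebraicIndependent_iff_injective_aeval.1 hy)) (hb.1.reprField ⟨b i, h⟩) = _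
    rw [h1, IsFractionRing.liftAlgHom_apply, IsFractionRing.lift_algebraMap]
    exact MvPolynomial.aeval_X _ _
  let _ : Algebra L Ω := ψ.toRingHom.toAlgebra
  have : IsScalarTower k1 L Ω := IsScalarTower.of_algebraMap_eq fun r => (ψ.commutes r).symm
  have hal : Algebra.IsAlgebraic L K := hb.isAlgebraic_field
  let σ : K →ₐ[L] Ω := IsAlgClosed.lift
  refine ⟨σ.restrictScalars k1, fun i => ?_⟩
  have h2 : b i ∈ L := IntermediateField.subset_adjoin _ _ ⟨i, rfl⟩
  have h3 := σ.commutes ⟨b i, h2⟩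
  change σ (b i) = _
  rw [← hψ i h2]
  exact h3

theorem exists_emb (k1 : Type) {K : Type} [Field k1] [Field K] [Algebra k1 K] (s : K)
    (hs : Transcendental k1 s) (M : Type) :
    ∃ (Ω : Type) (_ : Field Ω) (_ : Algebra k1 Ω) (σ : M → K →ₐ[k1] Ω),
      AlgebraicIndependent k1 (fun m => σ m s) := by
  have h1 : AlgebraicIndepOn k1 id ({s} : Set K) := by
    rw [AlgebraicIndepOn, algebraicIndependent_unique_type_iff]
    exact hs
  obtain ⟨t, ht, hb⟩ := exists_isTranscendenceBasis_superset h1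
  let Ω := AlgebraicClosure (FractionRing (MvPolynomial (M × t) k1))
  let X : M × t → Ω := fun p => algebraMap (MvPolynomial (M × t) k1) Ω (MvPolynomial.X p)
  have hinj : Function.Injective (algebraMap (MvPolynomial (M × t) k1) Ω) := by
    rw [IsScalarTower.algebraMap_eq (MvPolynomial (M × t) k1)
      (FractionRing (MvPolynomial (M × t) k1)) Ω]
    exact (algebraMap (FractionRing (MvPolynomial (M × t) k1)) Ω).injective.comp
      (IsFractionRing.injective _ _)
  have hX : AlgebraicIndependent k1 X := by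
    have h2 := MvPolynomial.algebraicIndependent_X (M × t) k1
    exact h2.map' (f := IsScalarTower.toAlgHom k1 (MvPolynomial (M × t) k1) Ω) hinj
  have h3 : ∀ m : M, ∃ σ : K →ₐ[k1] Ω, ∀ i : t, σ i.1 = X (m, i) := fun m =>
    exists_emb1 (fun x : t => (x : K)) hb (fun i => X (m, i))
      (hX.comp (fun i => (m, i)) fun a b h => (Prod.ext_iff.1 h).2)
  choose σ hσ using h3
  refine ⟨Ω, inferInstance, inferInstance, σ, ?_⟩
  have h4 : (fun m => σ m s) = X ∘ fun m => (m, (⟨s, ht rfl⟩ : t)) := by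
    funext m
    exact hσ m ⟨s, ht rfl⟩
  rw [h4]
  exact hX.comp _ fun a b h => (Prod.ext_iff.1 h).1

end Pool.Agent.TH145.MG
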