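import Pool.Agent.TH145.MG.Core
import Pool.Agent.TH145.MW.Hgt

/-!
There are no bad lines for linear forms with independent coefficients.
-/

set_option autoImplicit false

open Finset

namespace Pool.Agent.TH145.MG

open Pool.Agent.TH145.MW

/-- the coefficients of a polynomial lie in the field generated by values and arguments -/
theorem coeff_mem {Ω : Type} [Field Ω] (G : Subfield Ω) {N : ℕ} (s : Fin N → Ω)
    (hs : Function.Injective s) (hsG : ∀ m, s m ∈ G) (τ : Fin N → Ω)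
    (h : ∀ m, ∑ r, τ r * s m ^ (r : ℕ) ∈ G) : ∀ r, τ r ∈ G := by
  let s' : Fin N → G := fun m => ⟨s m, hsG m⟩
  have hs' : Function.Injective s' := fun a b hab => hs (congrArg Subtype.val hab)
  have h1 : (Matrix.vandermonde s').det ≠ 0 := Matrix.det_vandermonde_ne_zero_iff.2 hs'
  have h2 : (Matrix.vandermonde s).det ≠ 0 := Matrix.det_vandermonde_ne_zero_iff.2 hs
  let w : Fin N → G := fun m => ⟨_, h m⟩
  let τ' : Fin N → G := (Matrix.vandermonde s')⁻¹.mulVec w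
  have h3 : (Matrix.vandermonde s').mulVec τ' = w := by
    rw [Matrix.mulVec_mulVec, Matrix.mul_nonsing_inv _ (isUnit_iff_ne_zero.2 h1),
      Matrix.one_mulVec]
  have h4 : (Matrix.vandermonde s).mulVec (fun r => τ r - (τ' r : Ω)) = 0 := by
    funext m
    have h5 := congrArg (Subtype.val) (congrFun h3 m)
    simp only [Matrix.mulVec, dotProduct, Matrix.vandermonde_apply] at h5
    push_cast at h5
    simp only [Matrix.mulVec, dotProduct, Matrix.vandermonde_apply, Pi.zero_apply, mul_sub,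
      Finset.sum_sub_distrib]
    rw [sub_eq_zero]
    refine Eq.trans ?_ h5.symm
    exact Finset.sum_congr rfl fun r _ => mul_comm _ _
  have h5 := Matrix.eq_zero_of_mulVec_eq_zero h2 h4
  intro r
  have h6 := congrFun h5 r
  have h7 : τ r = (τ' r : Ω) := sub_eq_zero.1 h6
  rw [h7]
  exact (τ' r).2

/-- The conjugates of the coefficients are independent. -/
theorem conj_indep {k k1 K Ω : Type} [Field k] [Field k1] [Field K] [Field Ω] [Algebra k k1]
    [Algebra k1 K] [Algebra k1 Ω] [Algebra k Ω] [IsScalarTower k k1 Ω] {N : ℕ} {I : Type}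
    [Finite I] (σ : Fin N → K →ₐ[k1] Ω) (s : K) (hs : AlgebraicIndependent k1 fun m => σ m s)
    (τ : Fin N → I → k1) (hτ : AlgebraicIndependent k (fun p : Fin N × I => τ p.1 p.2))
    (a : I → K) (ha : ∀ i, a i = ∑ r, algebraMap k1 K (τ r i) * s ^ (r : ℕ)) :
    AlgebraicIndependent k (fun p : Fin N × I => σ p.1 (a p.2)) := by
  have h1 := hτ.sumElim_comp hs
  have h2 : AlgebraicIndependent k (Sum.elim (fun m => σ m s)
      (fun p : Fin N × I => σ p.1 (a p.2))) := by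
    refine indep_of_mem _ _ h1 ?_
    have h3 : ∀ m, σ m s ∈ cl k (Set.range (Sum.elim (fun m => σ m s)
        (fun p : Fin N × I => σ p.1 (a p.2)))) := fun m => subset_cl ⟨Sum.inl m, rfl⟩
    rintro (m | ⟨r, i⟩)
    · exact h3 m
    · refine coeff_mem (cl k (Set.range (Sum.elim (fun m => σ m s)
        (fun p : Fin N × I => σ p.1 (a p.2))))).toSubfield (fun m => σ m s) hs.injective h3
        (fun r => algebraMap k1 Ω (τ r i)) ?_ r
      intro m
      have h4 : ∑ r, algebraMap k1 Ω (τ r i) * σ m s ^ (r : ℕ) = σ m (a i) := by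
        rw [ha i, map_sum]
        refine Finset.sum_congr rfl fun r _ => ?_
        rw [map_mul, map_pow, (σ m).commutes]
      rw [h4]
      exact subset_cl ⟨Sum.inr (m, i), rfl⟩
  exact h2.comp Sum.inr Sum.inr_injective

theorem noBad {K : Type} [Field K] (k1 : Subfield K) {k : Type} [Field k] [Algebra k k1]
    (s : K) (hs : Transcendental k1 s) {q n : ℕ} (τ : Fin (q + 1) → (Fin q × Fin (n + 1)) → k1)
    (hτ : AlgebraicIndependent k (fun p : Fin (q + 1) × (Fin q × Fin (n + 1)) => τ p.1 p.2))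
    (A : Fin q → Fin (n + 1) → K)
    (hA : ∀ j i, A j i = ∑ r, (τ r (j, i) : K) * s ^ (r : ℕ)) (x u : Fin (n + 1) → K)
    (hli : LinearIndependent K ![x, u]) (hz : ∀ j, A j ⬝ᵥ x = 0 → A j ⬝ᵥ u = 0)
    (c : Fin q → K) (hc : ∀ j, c j ≠ 0) (e : ℕ) (he : 0 < e) (Sp : Set K)
    (hSp : ∀ l l', l ∈ Sp → l' ∈ Sp → l - l' ∈ k1) (δ : ℕ) (hδ : (δ = 0 ∧ Sp = ∅) ∨ δ = 1)
    (hsum : ∀ l, l ∉ Sp → clsum (k1 : Set K) A x u c e l = 0) :
    ((∀ j, ∃ r : k, (algebraMap k k1 r : K) = c j) → q ≤ 2 * n + δ) ∧ q ≤ 4 * n + δ := by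
  classical
  -- the embeddings
  obtain ⟨Ω, _, _, σ, hσ⟩ := exists_emb k1 s hs (Fin (q + 1))
  let _ : Algebra k Ω := Algebra.compHom Ω (algebraMap k k1)
  have : IsScalarTower k k1 Ω := IsScalarTower.of_algebraMap_eq fun _ => rfl
  let _ : Algebra k K := Algebra.compHom K (algebraMap k k1)
  have : IsScalarTower k k1 K := IsScalarTower.of_algebraMap_eq fun _ => rfl
  have hind := conj_indep (I := Fin q × Fin (n + 1)) σ s hσ τ hτ (fun p => A p.1 p.2)
    (fun p => hA p.1 p.2)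
  -- the normalisation
  have hx0 : x ≠ 0 := hli.ne_zero 0
  obtain ⟨i0, hi0⟩ := Function.ne_iff.1 hx0
  have hi0' : x i0 ≠ 0 := hi0
  obtain ⟨μ, hμ⟩ : ∃ μ, μ = u i0 / x i0 := ⟨_, rfl⟩
  obtain ⟨x', hx'⟩ : ∃ x', x' = (x i0)⁻¹ • x := ⟨_, rfl⟩
  obtain ⟨u', hu'⟩ : ∃ u', u' = (x i0)⁻¹ • (u - μ • x) := ⟨_, rfl⟩
  have hx'0 : x' i0 = 1 := by
    rw [hx', Pi.smul_apply, smul_eq_mul, inv_mul_cancel₀ hi0']
  have hu'0 : u' i0 = 0 := by
    rw [hu', hμ, Pi.smul_apply, Pi.sub_apply, Pi.smul_apply, smul_eq_mul, smul_eq_mul,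
      div_mul_cancel₀ _ hi0', sub_self, mul_zero]
  have hu'ne : u' ≠ 0 := by
    rw [hu']
    refine smul_ne_zero (inv_ne_zero hi0') ?_
    intro h0
    have h1 := (LinearIndependent.pair_iff' hx0).1 hli μ
    exact h1 (sub_eq_zero.1 h0).symm
  obtain ⟨i1, hi1⟩ := Function.ne_iff.1 hu'ne
  have hPx : ∀ j, A j ⬝ᵥ x' = (x i0)⁻¹ * (A j ⬝ᵥ x) := by
    intro j
    rw [hx', dotProduct_smul, smul_eq_mul]
  have hPu : ∀ j, A j ⬝ᵥ u' = (x i0)⁻¹ * (A j ⬝ᵥ u - μ * (A j ⬝ᵥ x)) := by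
    intro j
    rw [hu', dotProduct_smul, dotProduct_sub, dotProduct_smul, smul_eq_mul, smul_eq_mul]
  have hP0 : ∀ j, A j ⬝ᵥ x' ≠ 0 ↔ A j ⬝ᵥ x ≠ 0 := by
    intro j
    rw [hPx, mul_ne_zero_iff]
    exact ⟨fun h => h.2, fun h => ⟨inv_ne_zero hi0', h⟩⟩
  have hlam : ∀ j, A j ⬝ᵥ x ≠ 0 → A j ⬝ᵥ u' / A j ⬝ᵥ x' = A j ⬝ᵥ u / A j ⬝ᵥ x - μ := by
    intro j hj
    rw [hPx, hPu, mul_div_mul_left _ _ (inv_ne_zero hi0')]
    field_simp
  -- the classes
  obtain ⟨lam, hlamdef⟩ : ∃ lam : Fin q → K, ∀ j, lam j = A j ⬝ᵥ u / A j ⬝ᵥ x := ⟨_, fun _ => rfl⟩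
  obtain ⟨S, hS⟩ : ∃ S : Fin q → Finset (Fin q), ∀ j l, l ∈ S j ↔ A l ⬝ᵥ x ≠ 0 ∧
      lam l - lam j ∈ k1 := ⟨fun j => univ.filter fun l => A l ⬝ᵥ x ≠ 0 ∧ lam l - lam j ∈ k1,
    fun j l => by simp⟩
  have hSself : ∀ j, A j ⬝ᵥ x ≠ 0 → j ∈ S j := by
    intro j hj
    rw [hS, sub_self]
    exact ⟨hj, zero_mem _⟩
  have hSeq : ∀ j l, l ∈ S j → S l = S j := by
    intro j l hl
    rw [hS] at hl
    ext i
    rw [hS, hS]
    refine and_congr_right fun _ => ⟨fun h => ?_, fun h => ?_⟩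
    · have := add_mem h hl.2
      rwa [sub_add_sub_cancel] at this
    · have := sub_mem h hl.2
      rwa [sub_sub_sub_cancel_right] at this
  obtain ⟨ρ, hρ1, hρ2⟩ : ∃ ρ : Fin q → Fin q, (∀ j, A j ⬝ᵥ x ≠ 0 → ρ j ∈ S j) ∧
      ∀ j l, A j ⬝ᵥ x ≠ 0 → A l ⬝ᵥ x ≠ 0 → S j = S l → ρ j = ρ l := by
    refine ⟨fun j => if h : (S j).Nonempty then (S j).min' h else j, ?_, ?_⟩
    · intro j hj
      have h1 : (S j).Nonempty := ⟨j, hSself j hj⟩
      simp only [dif_pos h1]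
      exact Finset.min'_mem _ _
    · intro j l hj hl hjl
      have h1 : (S j).Nonempty := ⟨j, hSself j hj⟩
      have h2 : (S l).Nonempty := ⟨l, hSself l hl⟩
      simp only [dif_pos h1, dif_pos h2]
      congr 1
  have hρP : ∀ j, A j ⬝ᵥ x ≠ 0 → A (ρ j) ⬝ᵥ x ≠ 0 := fun j hj => ((hS _ _).1 (hρ1 j hj)).1
  have hρρ : ∀ j, A j ⬝ᵥ x ≠ 0 → ρ (ρ j) = ρ j := fun j hj =>
    hρ2 _ _ (hρP j hj) hj (hSeq _ _ (hρ1 j hj))
  have hρl : ∀ j, A j ⬝ᵥ x ≠ 0 → lam j - lam (ρ j) ∈ k1 := by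
    intro j hj
    have h1 := ((hS _ _).1 (hρ1 j hj)).2
    have h2 := neg_mem h1
    rwa [neg_sub] at h2
  have hρS : ∀ j l, A j ⬝ᵥ x ≠ 0 → ρ j = j → l ∈ S j → ρ l = j := by
    intro j l hj hρj hl
    rw [hρ2 l j ((hS _ _).1 hl).1 hj (hSeq _ _ hl), hρj]
  have hcore : ∀ E0 : Finset (Fin q), (∀ j, A j ⬝ᵥ x ≠ 0 → ρ j = j → j ∉ E0 →
      ∃ (T : Finset (Fin q)) (c : Fin q → k)
      (e : ℕ), 0 < e ∧ j ∈ T ∧ c j ≠ 0 ∧ (∀ l ∈ T, A l ⬝ᵥ x ≠ 0 ∧ (l ≠ j → ρ l ≠ l)) ∧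
        ∑ l ∈ T, algebraMap k K (c l) * (A l ⬝ᵥ x) ^ e = 0) → q ≤ 2 * n + E0.card := by
    intro E0 hE
    have h1 := core (fun m => (σ m).restrictScalars k) (k1 : Set K) (fun r hr m m' => by
        change σ m (algebraMap k1 K ⟨r, hr⟩) = σ m' (algebraMap k1 K ⟨r, hr⟩)
        rw [(σ m).commutes, (σ m').commutes]) A hind x' u' i0 i1 hx'0 hu'0 hi1
      (fun j hj => by
        have h2 : A j ⬝ᵥ x = 0 := by
          by_contra h2
          exact (hP0 j).2 h2 hj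
        rw [hPu, h2, hz j h2, mul_zero, sub_zero, mul_zero]) ρ (fun j hj => by
        rw [hP0] at hj
        refine ⟨(hP0 _).2 (hρP j hj), hρρ j hj, ?_⟩
        rw [hlam j hj, hlam _ (hρP j hj), sub_sub_sub_cancel_right, ← hlamdef, ← hlamdef]
        exact hρl j hj) E0 (fun j hj hρj hjE => by
        rw [hP0] at hj
        obtain ⟨T, c', e', he', hjT, hcj, hT, hs'⟩ := hE j hj hρj hjE
        refine ⟨T, c', e', he', hjT, hcj, fun l hl => ⟨(hP0 l).2 (hT l hl).1, (hT l hl).2⟩, ?_⟩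
        have h2 : ∀ l, algebraMap k K (c' l) * (A l ⬝ᵥ x') ^ e' =
            ((x i0)⁻¹) ^ e' * (algebraMap k K (c' l) * (A l ⬝ᵥ x) ^ e') := by
          intro l
          rw [hPx]
          ring
        simp only [h2]
        rw [← Finset.mul_sum, hs', mul_zero])
    rw [Fintype.card_fin] at h1
    exact core_card rfl h1
  -- the sums of the classes
  have hcl : ∀ j, lam j ∉ Sp → ∑ l ∈ S j, c l * (A l ⬝ᵥ x) ^ e = 0 := by
    intro j hj
    have h1 := hsum _ hj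
    unfold clsum at h1
    rw [← h1]
    refine Finset.sum_congr ?_ fun _ _ => rfl
    ext l
    rw [hS, Finset.mem_filter, hlamdef l]
    simp only [Finset.mem_univ, true_and]
    rfl
  obtain ⟨R, hR⟩ : ∃ R : Finset (Fin q), ∀ j, j ∈ R ↔ A j ⬝ᵥ x ≠ 0 ∧ ρ j = j :=
    ⟨univ.filter fun j => A j ⬝ᵥ x ≠ 0 ∧ ρ j = j, fun j => by simp⟩
  obtain ⟨R', hR'⟩ : ∃ R' : Finset (Fin q), ∀ j, j ∈ R' ↔ j ∈ R ∧ lam j ∈ Sp :=
    ⟨R.filter fun j => lam j ∈ Sp, fun j => by simp⟩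
  have hR'card : R'.card ≤ δ := by
    rcases hδ with ⟨h1, h2⟩ | h1
    · rw [h1]
      have h3 : R' = ∅ := by
        rw [Finset.eq_empty_iff_forall_notMem]
        intro j hj
        have h4 := ((hR' j).1 hj).2
        rw [h2] at h4
        exact h4
      rw [h3, Finset.card_empty]
    · rw [h1, Finset.card_le_one]
      intro a ha b hb
      obtain ⟨ha1, ha2⟩ := (hR' a).1 ha
      obtain ⟨hb1, hb2⟩ := (hR' b).1 hb
      rw [hR] at ha1 hb1
      have h2 : a ∈ S b := (hS _ _).2 ⟨ha1.1, hSp _ _ ha2 hb2⟩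
      rw [← ha1.2]
      exact hρS b a hb1.1 hb1.2 h2
  constructor
  · intro hck
    choose c' hc' using hck
    have h1 := hcore R' (fun j hj hρj hjR => by
      have h2 : lam j ∉ Sp := fun h => hjR ((hR' j).2 ⟨(hR j).2 ⟨hj, hρj⟩, h⟩)
      refine ⟨S j, c', e, he, hSself j hj, ?_, fun l hl => ⟨((hS _ _).1 hl).1, fun hlj hρl => ?_⟩,
        ?_⟩
      · intro h0
        apply hc j
        rw [← hc' j, h0, map_zero]
        rfl
      · exact hlj (hρl.symm.trans (hρS j l hj hρj hl))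
      · rw [← hcl j h2]
        refine Finset.sum_congr rfl fun l _ => ?_
        rw [← hc' l]
        rfl)
    omega
  · have h1 := hcore R (fun j hj hρj hjR => absurd ((hR j).2 ⟨hj, hρj⟩) hjR)
    -- partners
    have h2 : ∀ j ∈ R \ R', ∃ l, l ∉ R ∧ ρ l = j := by
      intro j hj
      obtain ⟨hjR, hjR'⟩ := Finset.mem_sdiff.1 hj
      obtain ⟨hj0, hρj⟩ := (hR j).1 hjR
      have h3 : lam j ∉ Sp := fun h => hjR' ((hR' j).2 ⟨hjR, h⟩)
      have h4 := hcl j h3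
      by_contra hcon
      push Not at hcon
      have h5 : S j = {j} := by
        apply Finset.eq_singleton_iff_unique_mem.2
        refine ⟨hSself j hj0, fun l hl => ?_⟩
        by_contra hlj
        have h6 := hρS j l hj0 hρj hl
        refine hcon l (fun hlR => hlj ?_) h6
        rw [← ((hR l).1 hlR).2, h6]
      rw [h5, Finset.sum_singleton] at h4
      rcases mul_eq_zero.1 h4 with h6 | h6
      · exact hc j h6
      · exact pow_ne_zero _ hj0 h6
    choose! π hπ1 hπ2 using h2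
    have h3 : (R \ R').card ≤ (univ \ R).card := by
      refine Finset.card_le_card_of_injOn π (fun j hj => ?_) (fun a ha b hb hab => ?_)
      · exact Finset.mem_coe.2 (Finset.mem_sdiff.2 ⟨Finset.mem_univ _, hπ1 j hj⟩)
      · rw [← hπ2 a ha, ← hπ2 b hb, hab]
    have h4 : (univ \ R).card = q - R.card := by
      rw [Finset.card_sdiff_of_subset (Finset.subset_univ R), Finset.card_univ, Fintype.card_fin]
    have h5 : R.card ≤ q := (Finset.card_le_univ R).trans (by rw [Fintype.card_fin])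
    have h6 : (R \ R').card = R.card - R'.card := by
      rw [Finset.card_sdiff_of_subset fun j hj => ((hR' j).1 hj).1]
    omega

end Pool.Agent.TH145.MG
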